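import Mathlib
import Pool.Agent.H29.SM.Asm
import Pool.Agent.H29.SM.Syl

/-!
# The integrality ring at `p`, and definitions
-/

set_option autoImplicit false
set_option linter.unusedSectionVars false

namespace H29SQ

open H25SI H29SM
open scoped IsMulCommutative

/-- the functions which have a multiple prime to `p` in the integrality ring -/
def Ip (G : Type) [Group G] (p : ℕ) [hp : Fact p.Prime] : Subring (IrrRep G → ℂ) where
  carrier := {f | ∃ m : ℤ, ¬ (p : ℤ) ∣ m ∧ m • f ∈ integralityRing G}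
  zero_mem' := ⟨1, fun h => hp.out.one_lt.ne' (Nat.dvd_one.1 (by exact_mod_cast h)), by
    rw [smul_zero]; exact Subring.zero_mem _⟩
  one_mem' := ⟨1, fun h => hp.out.one_lt.ne' (Nat.dvd_one.1 (by exact_mod_cast h)), by
    rw [one_smul]; exact Subring.one_mem _⟩
  add_mem' := by
    rintro f g ⟨m, hm, hf⟩ ⟨n, hn, hg⟩
    refine ⟨m * n, fun h => ?_, ?_⟩
    · rcases (Nat.prime_iff_prime_int.1 hp.out).dvd_or_dvd h with h1 | h1
      · exact hm h1
      · exact hn h1
    · have e : (m * n) • (f + g) = n • (m • f) + m • (n • g) := by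
        rw [smul_add, smul_smul, smul_smul, mul_comm n m]
      rw [e]
      exact Subring.add_mem _ (Subring.zsmul_mem _ hf _) (Subring.zsmul_mem _ hg _)
  mul_mem' := by
    rintro f g ⟨m, hm, hf⟩ ⟨n, hn, hg⟩
    refine ⟨m * n, fun h => ?_, ?_⟩
    · rcases (Nat.prime_iff_prime_int.1 hp.out).dvd_or_dvd h with h1 | h1
      · exact hm h1
      · exact hn h1
    · have e : (m * n) • (f * g) = (m • f) * (n • g) := by
        rw [smul_mul_smul_comm]
      rw [e]
      exact Subring.mul_mem _ hf hg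
  neg_mem' := by
    rintro f ⟨m, hm, hf⟩
    refine ⟨m, hm, ?_⟩
    rw [smul_neg]
    exact Subring.neg_mem _ hf

section
variable {G : Type} [Group G] (p : ℕ) [hp : Fact p.Prime]

theorem Ip_of_mem {f : IrrRep G → ℂ} (hf : f ∈ integralityRing G) : f ∈ Ip G p :=
  ⟨1, fun h => hp.out.one_lt.ne' (Nat.dvd_one.1 (by exact_mod_cast h)), by rwa [one_smul]⟩

theorem Ip_div {f : IrrRep G → ℂ} (m : ℤ) (hm : ¬ (p : ℤ) ∣ m) (hf : m • f ∈ Ip G p) :
    f ∈ Ip G p := by
  obtain ⟨n, hn, hf⟩ := hf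
  refine ⟨n * m, fun h => ?_, ?_⟩
  · rcases (Nat.prime_iff_prime_int.1 hp.out).dvd_or_dvd h with h1 | h1
    · exact hn h1
    · exact hm h1
  · rwa [← smul_smul]

/-- a function in `Ip` with finitely many values, all integers prime to `p`, is invertible -/
theorem Ip_inv {f : IrrRep G → ℂ} (S : Finset ℤ) (hS : ∀ s ∈ S, ¬ (p : ℤ) ∣ s)
    (hf : f ∈ Ip G p) (hv : ∀ π, ∃ s ∈ S, f π = (s : ℂ)) : (fun π => (f π)⁻¹) ∈ Ip G p := by
  classical
  have key : ∀ T : Finset ℤ, (fun π => ∏ s ∈ T, ((s : ℂ) - f π)) ∈ Ip G p ∧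
      ∃ h ∈ Ip G p, ∀ π, f π * h π = (∏ s ∈ T, (s : ℂ)) - ∏ s ∈ T, ((s : ℂ) - f π) := by
    intro T
    induction T using Finset.induction_on with
    | empty =>
      refine ⟨?_, 0, Subring.zero_mem _, fun π => by simp⟩
      simp only [Finset.prod_empty]
      exact Subring.one_mem _
    | insert a T ha ih =>
      obtain ⟨h1, h, h2, h3⟩ := ih
      have hint : ∀ z : ℤ, (fun _ : IrrRep G => (z : ℂ)) ∈ Ip G p := by
        intro z
        exact intCast_mem (Ip G p) z
      refine ⟨?_, (fun π => (a : ℂ) * h π + ∏ s ∈ T, ((s : ℂ) - f π)), ?_, fun π => ?_⟩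
      · have e : (fun π => ∏ s ∈ insert a T, ((s : ℂ) - f π))
            = ((fun _ => (a : ℂ)) - f) * (fun π => ∏ s ∈ T, ((s : ℂ) - f π)) := by
          funext π
          rw [Finset.prod_insert ha]
          rfl
        rw [e]
        exact Subring.mul_mem _ (Subring.sub_mem _ (hint a) hf) h1
      · exact Subring.add_mem _ (Subring.mul_mem _ (hint a) h2) h1
      · rw [Finset.prod_insert ha, Finset.prod_insert ha, mul_add]
        have := h3 π
        linear_combination (a : ℂ) * this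
  obtain ⟨-, h, h2, h3⟩ := key S
  refine Ip_div p (∏ s ∈ S, s) (fun hd => ?_) ?_
  · obtain ⟨s, hs, hsd⟩ := (Prime.dvd_finsetProd_iff (Nat.prime_iff_prime_int.1 hp.out) _).1 hd
    exact hS s hs hsd
  · have e : (∏ s ∈ S, s) • (fun π => (f π)⁻¹) = h := by
      funext π
      obtain ⟨s, hs, hsv⟩ := hv π
      have h0 : f π ≠ 0 := by
        rw [hsv]
        intro h
        rw [Int.cast_eq_zero] at h
        exact hS s hs (h ▸ dvd_zero _)
      have h4 := h3 π
      have h5 : ∏ s ∈ S, ((s : ℂ) - f π) = 0 :=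
        Finset.prod_eq_zero hs (show (s : ℂ) - f π = 0 by rw [hsv, sub_self])
      rw [h5, sub_zero] at h4
      rw [Pi.smul_apply, zsmul_eq_mul]
      push_cast
      rw [← h4]
      field_simp
    rw [e]
    exact h2

end

section
variable {G : Type} [Group G] {C : Type} [CommGroup C] (κ : G →* C) (j : C →* G)

/-- `κ⁻¹ D` as a subgroup of `κ⁻¹ Q` -/
def subH (D Q : Subgroup C) : Subgroup (Q.comap κ) := (D.comap κ).subgroupOf (Q.comap κ)

instance (D Q : Subgroup C) : (subH κ D Q).Normal := by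
  unfold subH
  infer_instance

/-- transport of a character -/
def resH (D Q : Subgroup C) (h : D ≤ Q) (η : D.comap κ →* ℂˣ) : subH κ D Q →* ℂˣ :=
  η.comp (Subgroup.subgroupOfEquivOfLe (Subgroup.comap_mono h)).toMonoidHom

/-- inclusion of `ℤ[κ⁻¹ Q]` in `ℤ[G]` -/
noncomputable def emH [Fintype G] (Q : Subgroup C) [Fintype (Q.comap κ)]
    (x : MonoidAlgebra ℤ (Q.comap κ)) : MonoidAlgebra ℤ G :=
  ∑ h : Q.comap κ, MonoidAlgebra.single (h : G) (x.coeff h)

/-- the sum of the elements of the complement -/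
noncomputable def wE (E' : Subgroup C) [Fintype E'] : MonoidAlgebra ℤ G :=
  ∑ e : E', MonoidAlgebra.single (j (e : C)) 1

end

end H29SQ
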