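import Mathlib
import Pool.Agent.H29.SQ.Ip

/-!
# Averages over a complement, and norms

PROOF of `exists_avg`.  `x := ∑ e : E', ∑ h : Q.comap κ, single (MulAut.conjNormal (j e) h) (b.coeff h)`
(`Q.comap κ` is normal in `G`, since `C` is commutative).  `emH κ Q x = ∑ e, ∑ h, single (j e * h * (j e)⁻¹) (b.coeff h)
= ∑ e, single (j e) 1 * emH κ Q b * single (j e)⁻¹ 1`, so it commutes with `single (j e) 1` (reindex the sum over the
group `E'`).  `ev η x = ∑ e, ∑ h, b.coeff h * η (conjNormal (j e) h) = ∑ e, ev (cj (Q.comap κ) (j e) η) b = card E' * ev η b`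
by `hb`.

PROOF of `exists_nrm`.  `f : H →* MonoidAlgebra ℤ (Abelianization H)`, `f = (MonoidAlgebra.of ..).comp Abelianization.of`,
`b := (ext (indM H f) x).det`; take `n` from `H25SI.exists_lift` (Fin.lean).  For `η`, `lam := Abelianization.lift η`,
`lam.comp Abelianization.of = η`, `ev η n = ev lam b = (ext (indM H (cv η)) x).det` by `RingHom.map_det` and `H25SI.map_ext`
(see `H25SI.ev_nrm` in Det.lean).
-/

set_option autoImplicit false
set_option linter.unusedSectionVars false

namespace H29SQ

open H25SI H29SM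
open scoped IsMulCommutative

section
variable {G : Type} [Group G] [Fintype G] {C : Type} [CommGroup C] [Fintype C] (κ : G →* C)
  (j : C →* G)

theorem emH_single (Q : Subgroup C) [Fintype (Q.comap κ)] (h : Q.comap κ) (n : ℤ) :
    emH κ Q (MonoidAlgebra.single h n) = MonoidAlgebra.single (h : G) n := by
  classical
  rw [emH, Finset.sum_eq_single h]
  · congr 1
    exact Finsupp.single_eq_same
  · intro h' _ hne
    have : (MonoidAlgebra.single h n : MonoidAlgebra ℤ (Q.comap κ)).coeff h' = 0 :=
      Finsupp.single_eq_of_ne hne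
    rw [this, MonoidAlgebra.single_zero]
  · intro hh
    exact absurd (Finset.mem_univ _) hh

theorem emH_add (Q : Subgroup C) [Fintype (Q.comap κ)] (x y : MonoidAlgebra ℤ (Q.comap κ)) :
    emH κ Q (x + y) = emH κ Q x + emH κ Q y := by
  rw [emH, emH, emH, ← Finset.sum_add_distrib]
  refine Finset.sum_congr rfl fun h _ => ?_
  rw [← MonoidAlgebra.single_add]
  rfl

theorem emH_zero (Q : Subgroup C) [Fintype (Q.comap κ)] :
    emH κ Q (0 : MonoidAlgebra ℤ (Q.comap κ)) = 0 := by
  rw [emH]
  refine Finset.sum_eq_zero fun h _ => ?_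
  have : (0 : MonoidAlgebra ℤ (Q.comap κ)).coeff h = 0 := rfl
  rw [this, MonoidAlgebra.single_zero]

theorem emH_sum (Q : Subgroup C) [Fintype (Q.comap κ)] {ι : Type} (s : Finset ι)
    (x : ι → MonoidAlgebra ℤ (Q.comap κ)) : emH κ Q (∑ i ∈ s, x i) = ∑ i ∈ s, emH κ Q (x i) := by
  classical
  induction s using Finset.induction_on with
  | empty => rw [Finset.sum_empty, Finset.sum_empty, emH_zero]
  | insert a s ha ih => rw [Finset.sum_insert ha, Finset.sum_insert ha, emH_add, ih]

theorem exists_avg (Q E' : Subgroup C) [Fintype E'] [Fintype (Q.comap κ)]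
    (b : MonoidAlgebra ℤ (Q.comap κ))
    (hb : ∀ (c : C) (η : Q.comap κ →* ℂˣ), ev (cj (Q.comap κ) (j c) η) b = ev η b) :
    ∃ x : MonoidAlgebra ℤ (Q.comap κ),
      (∀ e ∈ E', MonoidAlgebra.single (j e) 1 * emH κ Q x
        = emH κ Q x * MonoidAlgebra.single (j e) 1) ∧
      ∀ η : Q.comap κ →* ℂˣ, ev η x = (Fintype.card E' : ℂ) * ev η b := by
  classical
  refine ⟨∑ e : E', ∑ h : Q.comap κ,
    MonoidAlgebra.single (MulAut.conjNormal (j (e : C)) h) (b.coeff h), fun e he => ?_, fun η => ?_⟩
  · have key : ∀ (e' : C) (h : Q.comap κ),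
        ((MulAut.conjNormal (j e') h : Q.comap κ) : G) = j e' * h * (j e')⁻¹ := fun e' h => by
      rw [MulAut.conjNormal_apply]
    rw [emH_sum]
    simp only [emH_sum, emH_single, key]
    rw [Finset.mul_sum, Finset.sum_mul]
    rw [← Equiv.sum_comp (Equiv.mulLeft (⟨e, he⟩ : E'))
      (fun x : E' => (∑ h : Q.comap κ, MonoidAlgebra.single (j (x : C) * (h : G) * (j (x : C))⁻¹) (b.coeff h)) *
        MonoidAlgebra.single (j e) 1)]
    refine Finset.sum_congr rfl fun x _ => ?_
    rw [Finset.mul_sum, Finset.sum_mul]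
    refine Finset.sum_congr rfl fun h _ => ?_
    rw [MonoidAlgebra.single_mul_single, MonoidAlgebra.single_mul_single, one_mul, mul_one]
    congr 1
    change j e * (j (x : C) * (h : G) * (j (x : C))⁻¹) = j (e * (x : C)) * (h : G) * (j (e * (x : C)))⁻¹ * j e
    rw [map_mul]
    group
  · rw [map_sum]
    have h1 : ∀ e : E', ev η (∑ h : Q.comap κ,
        MonoidAlgebra.single (MulAut.conjNormal (j (e : C)) h) (b.coeff h)) = ev η b := by
      intro e
      rw [← hb (e : C) η, map_sum, ev_sum]
      refine Finset.sum_congr rfl fun h _ => ?_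
      rw [ev_single]
      rfl
    rw [Finset.sum_congr rfl fun e _ => h1 e, Finset.sum_const, Finset.card_univ, nsmul_eq_mul]

end

theorem exists_nrm {K : Type} [Group K] [Fintype K] (H : Subgroup K) [H.Normal] [Fintype (K ⧸ H)]
    [DecidableEq (K ⧸ H)] (x : MonoidAlgebra ℤ K) :
    ∃ n : MonoidAlgebra ℤ H, ∀ η : H →* ℂˣ, ev η n = (ext (indM H (cv η)) x).det := by
  classical
  have : Fintype H := Fintype.ofFinite _
  let f : H →* MonoidAlgebra ℤ (Abelianization H) :=
    (MonoidAlgebra.of ℤ (Abelianization H)).comp Abelianization.of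
  obtain ⟨n, hn⟩ := exists_lift (G := H) (ext (indM H f) x).det
  refine ⟨n, fun η => ?_⟩
  have h0 : (Abelianization.lift η).comp Abelianization.of = η := by
    ext h
    rw [MonoidHom.comp_apply, Abelianization.lift_apply_of]
  have h1 := hn (Abelianization.lift η)
  rw [h0] at h1
  rw [h1]
  have h2 := RingHom.map_det (ev (Abelianization.lift η) : MonoidAlgebra ℤ (Abelianization H) →+* ℂ)
    (ext (indM H f) x)
  rw [map_ext] at h2
  have h3 : (((ev (Abelianization.lift η) : MonoidAlgebra ℤ (Abelianization H) →+* ℂ) :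
      MonoidAlgebra ℤ (Abelianization H) →* ℂ).comp f) = cv η := by
    ext a
    have h4 := ev_of (Abelianization.lift η) (Abelianization.of a)
    rw [cv_apply, Abelianization.lift_apply_of] at h4
    exact h4
  rw [h3] at h2
  exact h2

end H29SQ
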