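import Mathlib
import Pool.Agent.H29.SQ.Ip

/-!
# Multiplicative functions at induced characters

PROOF of `lam_prod`.  `H₁ = Q.comap κ`, `H = D.comap κ ≤ H₁`, `H' = subH κ D Q`; `B := H₁ ⧸ H'` is a finite commutative
group (commutators of `H₁` are in `κ.ker ≤ H`), so it has `card B` characters and `∑ μ, μ b = card B` if `b = 1`, `0`
otherwise (`H25SI.sum_chars`, stated for commutative groups; see the `let _ : CommGroup` trick in the proof of
`H25SI.det_extend`).  So, with `H25SI.indChar` (Chr.lean),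
`∑ μ, indChar H₁ (η₁ * μ ∘ mk) g = (card H₁)⁻¹ ∑ t, [t⁻¹ g t ∈ H₁] η₁(t⁻¹ g t) * card B * [t⁻¹ g t ∈ H]`
`= (card H)⁻¹ ∑ t, [t⁻¹ g t ∈ H] η₁(t⁻¹ g t) = indChar H (η₁ | H) g`, since `card H₁ = card B * card H`.
Then `H25SI.val_sum`, where `IsCharacter (indChar H₁ η)` by `H25SI.trace_indMG` (Gen.lean).
The index set of the product is the one of `H25SI.det_extend`.

PROOF of `det_prod`: `H25SI.det_extend` for the group `Q.comap κ` and its subgroup `subH κ D Q`, `lam = η₁`.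
(`resH` of `η₁ ∘ inclusion` is `η₁.comp (subH κ D Q).subtype`.)

PROOF of `exists_up`: `ψ = resA κ D η₀` is fixed by `Q`; take an extension `μ` of `resD κ j hκ D η₀` to `Q` (characters
of subgroups of finite abelian groups extend: `MonoidHom.domRestrict_surjective` as in `H25SI.exists_extend`, or
`H25SI.exists_exts`), and `η₁` from `H25SI.exists_eta` (Asm.lean) for `Q`, `ψ`, `μ`.  Both sides agree on `κ.ker` and on
`j D`, and every element of `D.comap κ` is `a * j c`.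
-/

set_option autoImplicit false
set_option linter.unusedSectionVars false

namespace H29SQ

open H25SI H29SM
open scoped IsMulCommutative

section
variable {G : Type} [Group G] [Fintype G] {C : Type} [CommGroup C] [Fintype C] (κ : G →* C)
  (j : C →* G)

/-- restriction of characters -/
def dn (D Q : Subgroup C) (h : D ≤ Q) (η : Q.comap κ →* ℂˣ) : D.comap κ →* ℂˣ :=
  η.comp (Subgroup.inclusion (Subgroup.comap_mono h))

private theorem quo_comm (D Q : Subgroup C) :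
    ∀ x y : Q.comap κ ⧸ subH κ D Q, x * y = y * x := by
  intro x y
  induction x using QuotientGroup.induction_on with | _ x
  induction y using QuotientGroup.induction_on with | _ y
  rw [← QuotientGroup.mk_mul, ← QuotientGroup.mk_mul, QuotientGroup.eq]
  change (((x * y)⁻¹ * (y * x) : Q.comap κ) : G) ∈ D.comap κ
  rw [Subgroup.mem_comap]
  have e : κ (((x * y)⁻¹ * (y * x) : Q.comap κ) : G) = 1 := by
    simp only [Subgroup.coe_mul, Subgroup.coe_inv, map_mul, map_inv]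
    rw [mul_comm (κ (y : G)) (κ (x : G)), inv_mul_cancel]
  rw [e]
  exact D.one_mem

private theorem sum_ch {B : Type} [Group B] [Finite B] (hB : ∀ x y : B, x * y = y * x) (b : B)
    [Decidable (b = 1)] :
    ∑ μ ∈ (Set.toFinite (Set.univ : Set (B →* ℂˣ))).toFinset, ((μ b : ℂˣ) : ℂ)
      = if b = 1 then (Nat.card B : ℂ) else 0 := by
  classical
  let _ : CommGroup B := { (inferInstance : Group B) with mul_comm := hB }
  have : Fintype B := Fintype.ofFinite B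
  have h1 : ∑ μ ∈ (Set.toFinite (Set.univ : Set (B →* ℂˣ))).toFinset, ((μ b : ℂˣ) : ℂ)
      = ∑ μ : B →* ℂˣ, ((μ b : ℂˣ) : ℂ) := by
    refine Finset.sum_congr ?_ fun μ _ => rfl
    ext μ
    simp
  rw [h1, sum_chars, Nat.card_eq_fintype_card]
  by_cases hb : b = 1
  · rw [if_pos hb, if_pos hb]
  · rw [if_neg hb, if_neg hb]

private theorem card_eq (D Q : Subgroup C) (h : D ≤ Q) :
    Nat.card (Q.comap κ) = Nat.card (Q.comap κ ⧸ subH κ D Q) * Nat.card (D.comap κ) := by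
  rw [Subgroup.card_eq_card_quotient_mul_card_subgroup (subH κ D Q)]
  congr 1
  exact Nat.card_congr (Subgroup.subgroupOfEquivOfLe (Subgroup.comap_mono h)).toEquiv

private theorem indChar_up (D Q : Subgroup C) (h : D ≤ Q) (η₁ : Q.comap κ →* ℂˣ) :
    indChar (D.comap κ) (dn κ D Q h η₁)
      = ∑ μ ∈ (Set.toFinite (Set.univ : Set ((Q.comap κ ⧸ subH κ D Q) →* ℂˣ))).toFinset,
          indChar (Q.comap κ) (η₁ * μ.comp (QuotientGroup.mk' (subH κ D Q))) := by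
  classical
  funext g
  rw [Finset.sum_apply]
  simp only [indChar]
  rw [← Finset.mul_sum, Finset.sum_comm]
  have hle : D.comap κ ≤ Q.comap κ := Subgroup.comap_mono h
  have key : ∀ t : G, ∑ μ ∈ (Set.toFinite (Set.univ :
      Set ((Q.comap κ ⧸ subH κ D Q) →* ℂˣ))).toFinset,
      (if hh : t⁻¹ * g * t ∈ Q.comap κ then
        (((η₁ * μ.comp (QuotientGroup.mk' (subH κ D Q))) ⟨t⁻¹ * g * t, hh⟩ : ℂˣ) : ℂ) else 0)
      = (Nat.card (Q.comap κ ⧸ subH κ D Q) : ℂ) *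
        (if hh : t⁻¹ * g * t ∈ D.comap κ then
          ((dn κ D Q h η₁ ⟨t⁻¹ * g * t, hh⟩ : ℂˣ) : ℂ) else 0) := by
    intro t
    by_cases hQ : t⁻¹ * g * t ∈ Q.comap κ
    · simp only [dif_pos hQ]
      have h1 : ∀ μ : (Q.comap κ ⧸ subH κ D Q) →* ℂˣ,
          (((η₁ * μ.comp (QuotientGroup.mk' (subH κ D Q))) ⟨t⁻¹ * g * t, hQ⟩ : ℂˣ) : ℂ)
          = ((η₁ ⟨t⁻¹ * g * t, hQ⟩ : ℂˣ) : ℂ)
            * ((μ ((⟨t⁻¹ * g * t, hQ⟩ : Q.comap κ) : Q.comap κ ⧸ subH κ D Q) : ℂˣ) : ℂ) := by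
        intro μ
        rw [MonoidHom.mul_apply, Units.val_mul]
        rfl
      rw [Finset.sum_congr rfl fun μ _ => h1 μ, ← Finset.mul_sum, sum_ch (quo_comm κ D Q)]
      by_cases hD : t⁻¹ * g * t ∈ D.comap κ
      · have h2 : ((⟨t⁻¹ * g * t, hQ⟩ : Q.comap κ) : Q.comap κ ⧸ subH κ D Q) = 1 :=
          (QuotientGroup.eq_one_iff _).2 hD
        rw [if_pos h2, dif_pos hD, mul_comm]
        rfl
      · have h2 : ¬ ((⟨t⁻¹ * g * t, hQ⟩ : Q.comap κ) : Q.comap κ ⧸ subH κ D Q) = 1 :=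
          fun h3 => hD ((QuotientGroup.eq_one_iff (N := subH κ D Q)
            (⟨t⁻¹ * g * t, hQ⟩ : Q.comap κ)).1 h3)
        rw [if_neg h2, dif_neg hD, mul_zero, mul_zero]
    · simp only [dif_neg hQ]
      rw [dif_neg fun h3 => hQ (hle h3), Finset.sum_const_zero, mul_zero]
  rw [Finset.sum_congr rfl fun t _ => key t, ← Finset.mul_sum, card_eq κ D Q h]
  have c1 : (Nat.card (Q.comap κ ⧸ subH κ D Q) : ℂ) ≠ 0 := by
    have : 0 < Nat.card (Q.comap κ ⧸ subH κ D Q) := Nat.card_pos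
    exact_mod_cast this.ne'
  have c2 : (Nat.card (D.comap κ) : ℂ) ≠ 0 := by
    have : 0 < Nat.card (D.comap κ) := Nat.card_pos
    exact_mod_cast this.ne'
  push_cast
  field_simp

theorem lam_prod (Λ : (G → ℂ) → ℂ) (hΛ : IsMultiplicative Λ) (D Q : Subgroup C) (h : D ≤ Q)
    (η₁ : Q.comap κ →* ℂˣ) :
    Λ (indChar (D.comap κ) (dn κ D Q h η₁))
      = ∏ μ ∈ (Set.toFinite (Set.univ : Set ((Q.comap κ ⧸ subH κ D Q) →* ℂˣ))).toFinset,
          Λ (indChar (Q.comap κ) (η₁ * μ.comp (QuotientGroup.mk' (subH κ D Q)))) := by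
  classical
  have : Fintype (G ⧸ Q.comap κ) := Fintype.ofFinite _
  rw [indChar_up κ D Q h η₁]
  refine val_sum Λ hΛ.1 hΛ.2 _ _ fun μ _ => ?_
  exact ⟨G ⧸ Q.comap κ, inferInstance, inferInstance,
    indM (Q.comap κ) (cv (η₁ * μ.comp (QuotientGroup.mk' (subH κ D Q)))),
    fun g => (trace_indMG (Q.comap κ) _ g).symm⟩

theorem det_prod (D Q : Subgroup C) (h : D ≤ Q) [Fintype (Q.comap κ ⧸ subH κ D Q)]
    [DecidableEq (Q.comap κ ⧸ subH κ D Q)] (η₁ : Q.comap κ →* ℂˣ)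
    (x : MonoidAlgebra ℤ (Q.comap κ)) :
    (ext (indM (subH κ D Q) (cv (resH κ D Q h (dn κ D Q h η₁)))) x).det
      = ∏ μ ∈ (Set.toFinite (Set.univ : Set ((Q.comap κ ⧸ subH κ D Q) →* ℂˣ))).toFinset,
          ev (η₁ * μ.comp (QuotientGroup.mk' (subH κ D Q))) x := by
  have : Fintype (Q.comap κ) := Fintype.ofFinite _
  exact det_extend (subH κ D Q) (quo_comm κ D Q) η₁ x

theorem exists_up [IsMulCommutative κ.ker] [Fintype κ.ker] (hκ : ∀ c, κ (j c) = c)
    (D Q : Subgroup C) (h : D ≤ Q) (η₀ : D.comap κ →* ℂˣ)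
    (hf : ∀ c ∈ Q, cj κ.ker (j c) (resA κ D η₀) = resA κ D η₀) :
    ∃ η₁ : Q.comap κ →* ℂˣ, dn κ D Q h η₁ = η₀ := by
  classical
  let μ₀ : D.subgroupOf Q →* ℂˣ :=
    (resD κ j hκ D η₀).comp (Subgroup.subgroupOfEquivOfLe h).toMonoidHom
  obtain ⟨μ, hμ⟩ := MonoidHom.domRestrict_surjective (M := ℂ) (G := Q) (D.subgroupOf Q) μ₀
  obtain ⟨η₁, h1, h2⟩ := exists_eta κ j hκ Q (resA κ D η₀) hf μ
  refine ⟨η₁, ?_⟩
  apply MonoidHom.ext
  intro x
  have hxD : κ (x : G) ∈ D := x.2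
  have hxQ : κ (x : G) ∈ Q := h hxD
  have ha := al_mem κ j hκ (x : G)
  have hjD : j (κ (x : G)) ∈ D.comap κ := by
    rw [Subgroup.mem_comap, hκ]
    exact hxD
  have hjQ : j (κ (x : G)) ∈ Q.comap κ := by
    rw [Subgroup.mem_comap, hκ]
    exact hxQ
  have e1 : dn κ D Q h η₁ x
      = resA κ Q η₁ ⟨_, ha⟩ * resD κ j hκ Q η₁ ⟨κ (x : G), hxQ⟩ := by
    have e : (Subgroup.inclusion (Subgroup.comap_mono h) x : Q.comap κ)
        = Subgroup.inclusion (ker_le κ Q) ⟨_, ha⟩ * ⟨j (κ (x : G)), hjQ⟩ := by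
      apply Subtype.ext
      change (x : G) = (x : G) * (j (κ (x : G)))⁻¹ * j (κ (x : G))
      rw [inv_mul_cancel_right]
    change η₁ (Subgroup.inclusion (Subgroup.comap_mono h) x) = _
    rw [e, map_mul]
    rfl
  have e2 : η₀ x = resA κ D η₀ ⟨_, ha⟩ * resD κ j hκ D η₀ ⟨κ (x : G), hxD⟩ := by
    have e : x = Subgroup.inclusion (ker_le κ D) ⟨_, ha⟩ * ⟨j (κ (x : G)), hjD⟩ := by
      apply Subtype.ext
      change (x : G) = (x : G) * (j (κ (x : G)))⁻¹ * j (κ (x : G))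
      rw [inv_mul_cancel_right]
    conv_lhs => rw [e]
    rw [map_mul]
    rfl
  have e3 : resD κ j hκ Q η₁ ⟨κ (x : G), hxQ⟩ = resD κ j hκ D η₀ ⟨κ (x : G), hxD⟩ := by
    rw [h2]
    have h3 := DFunLike.congr_fun hμ (⟨⟨κ (x : G), hxQ⟩, hxD⟩ : D.subgroupOf Q)
    exact h3
  rw [e1, e2, h1, e3]

end

end H29SQ
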