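import Mathlib

/-!
# A block determinant

PROOF of `det_block`.  Let `s = card E ≠ 0` (`E` is nonempty).  With `A : Matrix (E × Q) Q ℂ`,
`A (e, q) q' = (R q q' - if q = q' then 1 else 0) / s`, `B : Matrix Q (E × Q) ℂ`, `B q (e, q') = if q = q' then 1 else 0`,
the matrix is `s • (1 + A * B)`.  `Matrix.det_smul`, `Matrix.det_one_add_mul_comm : det (1 + A * B) = det (1 + B * A)`
and `B * A = R - 1` (sum over `e : E`, `s` equal terms).
-/

set_option autoImplicit false

namespace H29SQ

theorem det_block {E Q : Type} [Fintype E] [DecidableEq E] [Nonempty E] [Fintype Q] [DecidableEq Q]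
    (R : Matrix Q Q ℂ) :
    (Matrix.of fun s t : E × Q => (if s = t then (Fintype.card E : ℂ) else 0)
      - (if s.2 = t.2 then 1 else 0) + R s.2 t.2).det
      = (Fintype.card E : ℂ) ^ Fintype.card (E × Q) * R.det := by
  classical
  have hs : (Fintype.card E : ℂ) ≠ 0 := by
    exact_mod_cast Fintype.card_ne_zero
  let A : Matrix (E × Q) Q ℂ := Matrix.of fun x q =>
    (R x.2 q - if x.2 = q then 1 else 0) / (Fintype.card E : ℂ)
  let B : Matrix Q (E × Q) ℂ := Matrix.of fun q y => if q = y.2 then 1 else 0
  have h1 : (Matrix.of fun s t : E × Q => (if s = t then (Fintype.card E : ℂ) else 0)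
      - (if s.2 = t.2 then 1 else 0) + R s.2 t.2) = (Fintype.card E : ℂ) • (1 + A * B) := by
    ext x y
    have e : (A * B) x y = (R x.2 y.2 - if x.2 = y.2 then 1 else 0) / (Fintype.card E : ℂ) := by
      rw [Matrix.mul_apply]
      simp only [A, B, Matrix.of_apply, mul_ite, mul_one, mul_zero]
      rw [Finset.sum_ite_eq']
      simp
    rw [Matrix.of_apply, Matrix.smul_apply, Matrix.add_apply, e, Matrix.one_apply, smul_eq_mul]
    by_cases hxy : x = y
    · rw [if_pos hxy, if_pos hxy]
      field_simp
      ring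
    · rw [if_neg hxy, if_neg hxy]
      field_simp
      ring
  have h2 : 1 + B * A = R := by
    ext q q'
    rw [Matrix.add_apply, Matrix.mul_apply, Fintype.sum_prod_type]
    have e : ∀ e : E, ∑ y : Q, B q (e, y) * A (e, y) q' =
        (R q q' - if q = q' then 1 else 0) / (Fintype.card E : ℂ) := by
      intro e
      simp only [A, B, Matrix.of_apply, ite_mul, one_mul, zero_mul]
      rw [Finset.sum_ite_eq]
      simp
    rw [Finset.sum_congr rfl fun x _ => e x, Finset.sum_const, Finset.card_univ, nsmul_eq_mul,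
      mul_div_cancel₀ _ hs, Matrix.one_apply]
    ring
  rw [h1, Matrix.det_smul, Matrix.det_one_add_mul_comm, h2]

end H29SQ
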