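import Mathlib
import Pool.Agent.H29.SQ.Ip

/-!
# The element whose reduced norm is taken
-/

set_option autoImplicit false
set_option linter.unusedSectionVars false

namespace H29SQ

open H25SI H29SM
open scoped IsMulCommutative

section
variable {G : Type} [Group G] [Fintype G] {C : Type} [CommGroup C] [Fintype C] (κ : G →* C)
  (j : C →* G) [IsMulCommutative κ.ker] [Fintype κ.ker]

/-- the element whose reduced norm is taken -/
noncomputable def XE (E' Q : Subgroup C) [Fintype E'] [Fintype (Q.comap κ)]
    (x : MonoidAlgebra ℤ (Q.comap κ)) : MonoidAlgebra ℤ G :=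
  ((Fintype.card E' : ℤ) : MonoidAlgebra ℤ G) - wE j E' + wE j E' * emH κ Q x

end

end H29SQ
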