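import Mathlib
import Pool.Agent.H29.SQ.Xe
import Pool.Agent.H29.SQ.Blk

/-!
# Reduced norms of elements which commute with a complement: the full case

PROOF of `nr_full`.  `E'` is a complement of `d.D` in `C`.  The vectors `b_e = π(j e) v`, `e : E'`, are a basis of
the space (`f` as in `H25SI.dat_det`, Stq.lean: injective by `indep_eig`, the characters `cj (j e)⁻¹ ψ` of `κ.ker` are
distinct because `e * e'⁻¹ ∈ d.D` gives `e = e'`; surjective because its range is stable: `κ.ker` acts by scalars on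
`b_e`, `j c` for `c = e₁ * δ`, `e₁ ∈ E'`, `δ ∈ d.D`, maps `b_e` to a multiple of `b_{e₁ e}`).
`ext π.ρ (emH κ d.D x) v = ev d.η x • v`, and `x` commutes with `j e`, so `ext π.ρ (emH κ d.D x)` is multiplication by
the scalar `ev d.η x` on all `b_e`, hence equal to `ev d.η x • 1`.  So `ext π.ρ (XE ..) = s • 1 + (ev d.η x - 1) • W`,
`s = card E'`, `W = ext π.ρ (wE j E')`, and `W b_e = ∑ e', b_e'`.  In the basis `b_e` this is the matrix of `det_block`
with `Q = Unit`, `R = ev d.η x`; `card E' = π.n`.  (Alternatively `det (s • 1 + a • W)` by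
`Matrix.det_one_add_mul_comm` with the all ones vector.)  `det` is invariant under conjugation: see
`H25SI.ext_intertwine` (Irr.lean) or `LinearMap.det_conj`.
-/

set_option autoImplicit false
set_option linter.unusedSectionVars false

namespace H29SQ

open H25SI H29SM
open scoped IsMulCommutative

section
variable {G : Type} [Group G] [Fintype G] {C : Type} [CommGroup C] [Fintype C] (κ : G →* C)
  (j : C →* G) [IsMulCommutative κ.ker] [Fintype κ.ker]

/-- the determinant of `s + a J`, `J` the all ones matrix of size `s` -/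
private theorem nrf_det {E : Type} [Fintype E] [DecidableEq E] [Nonempty E] (t : ℂ) :
    ((Fintype.card E : ℂ) • (1 : Matrix E E ℂ) + (t - 1) • Matrix.of (fun _ _ => (1 : ℂ))).det
      = (Fintype.card E : ℂ) ^ Fintype.card E * t := by
  have hs : (Fintype.card E : ℂ) ≠ 0 := by
    have : Fintype.card E ≠ 0 := Fintype.card_ne_zero
    exact_mod_cast this
  have h1 : (Fintype.card E : ℂ) • (1 : Matrix E E ℂ) + (t - 1) • Matrix.of (fun _ _ => (1 : ℂ)) =
      (Fintype.card E : ℂ) • (1 + (Matrix.of fun (_ : E) (_ : Unit) => (t - 1) / (Fintype.card E : ℂ)) *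
        (Matrix.of fun (_ : Unit) (_ : E) => (1 : ℂ))) := by
    rw [smul_add]
    congr 1
    ext i k
    simp only [Matrix.smul_apply, Matrix.of_apply, Matrix.mul_apply, smul_eq_mul, mul_one, Finset.univ_unique,
      Finset.sum_const, Finset.card_singleton, one_smul]
    field_simp
  rw [h1, Matrix.det_smul, Matrix.det_one_add_mul_comm, Matrix.det_unique]
  congr 1
  rw [Matrix.add_apply, Matrix.one_apply_eq, Matrix.mul_apply]
  simp only [Matrix.of_apply, one_mul, Finset.sum_const, Finset.card_univ, nsmul_eq_mul]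
  field_simp
  ring

theorem nr_full (hκ : ∀ c, κ (j c) = c) {π : IrrRep G} (d : Dat κ j π) (E' : Subgroup C) [Fintype E']
    [Fintype (d.D.comap κ)] (h1 : d.D ⊓ E' = ⊥) (h2 : d.D ⊔ E' = ⊤)
    (x : MonoidAlgebra ℤ (d.D.comap κ))
    (hx : ∀ e ∈ E', MonoidAlgebra.single (j e) 1 * emH κ d.D x
      = emH κ d.D x * MonoidAlgebra.single (j e) 1) :
    (ext π.ρ (XE κ j E' d.D x)).det = (Fintype.card E' : ℂ) ^ π.n * ev d.η x := by
  classical
  let μ := resD κ j hκ d.D d.η
  let ψ := resA κ d.D d.η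
  have hvD : ∀ a : d.D, (π.ρ (j a)).mulVec d.v = cv μ a • d.v := fun a =>
    d.hv (((j.comp d.D.subtype).codRestrict (d.D.comap κ) fun d => by
    rw [Subgroup.mem_comap, MonoidHom.comp_apply, hκ]
    exact d.2) a)
  have hvA : ∀ a : κ.ker, (π.ρ (a : G)).mulVec d.v = cv ψ a • d.v := fun a =>
    d.hv (Subgroup.inclusion (ker_le κ d.D) a)
  let w : E' → Fin π.n → ℂ := fun q => (π.ρ (j (q : C))).mulVec d.v
  let f : (E' → ℂ) →ₗ[ℂ] (Fin π.n → ℂ) := Fintype.linearCombination ℂ w
  have hf : ∀ c, f c = ∑ q : E', c q • w q := fun c => Fintype.linearCombination_apply _ _ _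
  have hw0 : ∀ q, w q ≠ 0 := by
    intro q h
    apply d.v0
    have h1 : (π.ρ (j (q : C))⁻¹).mulVec (w q) = d.v := by
      simp only [w]
      rw [Matrix.mulVec_mulVec, ← map_mul, inv_mul_cancel, map_one, Matrix.one_mulVec]
    rw [← h1, h, Matrix.mulVec_zero]
  have hwA : ∀ q, ∀ a : κ.ker, (π.ρ (a : G)).mulVec (w q) = cv (cj κ.ker (j (q : C))⁻¹ ψ) a • w q :=
    fun q a => eig_conjG κ.ker π.ρ ψ d.v hvA (j (q : C)) a
  -- the action of the complement
  have hwE : ∀ e q : E', (π.ρ (j (e : C))).mulVec (w q) = w (e * q) := by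
    intro e q
    simp only [w]
    rw [Matrix.mulVec_mulVec, ← map_mul, ← map_mul j]
    rfl
  have hwC : ∀ (c : C) (q : E'), ∃ (z : ℂ) (q' : E'), (π.ρ (j c)).mulVec (w q) = z • w q' := by
    intro c q
    have hc : c ∈ d.D ⊔ E' := by rw [h2]; trivial
    obtain ⟨δ, hδ, e₁, he₁, rfl⟩ := Subgroup.mem_sup.1 hc
    refine ⟨cv μ ⟨δ, hδ⟩, ⟨e₁, he₁⟩ * q, ?_⟩
    simp only [w]
    have e : j (δ * e₁) * j (q : C) = j (((⟨e₁, he₁⟩ * q : E') : C)) * j δ := by
      rw [← map_mul, ← map_mul]
      congr 1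
      rw [Subgroup.coe_mul, mul_comm δ e₁, mul_assoc, mul_comm δ, ← mul_assoc]
    rw [Matrix.mulVec_mulVec, ← map_mul, e, map_mul π.ρ, ← Matrix.mulVec_mulVec]
    have h3 := hvD ⟨δ, hδ⟩
    rw [h3, Matrix.mulVec_smul]
  have hinj : Function.Injective f := by
    rw [injective_iff_map_eq_zero]
    intro c hc
    rw [hf] at hc
    refine indep_eig κ.ker π.ρ (fun q : E' => cj κ.ker (j (q : C))⁻¹ ψ) ?_ w hw0 hwA c hc
    intro q q0 h4
    have h5 := congrArg (cj κ.ker (j (q0 : C))) h4
    simp only [cj_cjG, inv_mul_cancel, cj_oneG] at h5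
    rw [← map_inv, ← map_mul] at h5
    have h6 := (d.hD _).1 h5
    have h7 : (q : C)⁻¹ * (q0 : C) ∈ d.D ⊓ E' :=
      ⟨h6, E'.mul_mem (E'.inv_mem q.2) q0.2⟩
    rw [h1, Subgroup.mem_bot, inv_mul_eq_one] at h7
    exact Subtype.ext h7
  have hsurj : Function.Surjective f := by
    rw [← LinearMap.range_eq_top]
    have hmem : ∀ q, w q ∈ LinearMap.range f := by
      intro q
      refine ⟨Pi.single q 1, ?_⟩
      rw [hf, Finset.sum_eq_single q]
      · rw [Pi.single_eq_same, one_smul]
      · intro q' _ hq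
        rw [Pi.single_eq_of_ne hq, zero_smul]
      · intro hq
        exact absurd (Finset.mem_univ _) hq
    rcases π.irr (LinearMap.range f) (fun g u hu => by
      obtain ⟨c, rfl⟩ := hu
      rw [hf, Matrix.mulVec_sum]
      refine Submodule.sum_mem _ fun q _ => ?_
      rw [Matrix.mulVec_smul]
      refine Submodule.smul_mem _ _ ?_
      have e : g = ((⟨_, al_mem κ j hκ g⟩ : κ.ker) : G) * j (κ g) := by simp
      rw [e, map_mul, ← Matrix.mulVec_mulVec]
      obtain ⟨z, q', hz⟩ := hwC (κ g) q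
      rw [hz, Matrix.mulVec_smul, hwA]
      exact Submodule.smul_mem _ _ (Submodule.smul_mem _ _ (hmem q'))) with h | h
    · exfalso
      have h3 := hmem 1
      rw [h, Submodule.mem_bot] at h3
      exact hw0 1 h3
    · exact h
  let e : (E' → ℂ) ≃ₗ[ℂ] (Fin π.n → ℂ) := LinearEquiv.ofBijective f ⟨hinj, hsurj⟩
  have he : ∀ c, e c = f c := fun c => rfl
  have hcard : Fintype.card E' = π.n := by
    have := LinearEquiv.finrank_eq e
    rw [Module.finrank_fintype_fun_eq_card, Module.finrank_fintype_fun_eq_card, Fintype.card_fin] at this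
    exact this
  -- the element acts by a scalar
  set M := ext π.ρ (emH κ d.D x) with hM
  set t := ev d.η x with ht
  have hMv : M.mulVec d.v = t • d.v := by
    rw [hM, ht, emH, map_sum, Matrix.sum_mulVec, ev_sum, Finset.sum_smul]
    refine Finset.sum_congr rfl fun h _ => ?_
    rw [ext_single, Matrix.smul_mulVec, d.hv h, ← Int.cast_smul_eq_zsmul ℂ, smul_smul]
    rfl
  have hMw : ∀ q, M.mulVec (w q) = t • w q := by
    intro q
    have h3 := congrArg (ext π.ρ) (hx (q : C) q.2)
    rw [map_mul, map_mul, ext_single, one_smul, ← hM] at h3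
    simp only [w]
    rw [Matrix.mulVec_mulVec, ← h3, ← Matrix.mulVec_mulVec, hMv, Matrix.mulVec_smul]
  have hMf : ∀ c, M.mulVec (f c) = t • f c := by
    intro c
    rw [hf, Matrix.mulVec_sum, Finset.smul_sum]
    refine Finset.sum_congr rfl fun q _ => ?_
    rw [Matrix.mulVec_smul, hMw, smul_comm]
  have hW : ∀ c, (ext π.ρ (wE j E')).mulVec (f c) = f (fun _ => ∑ q, c q) := by
    intro c
    rw [hf, hf, Matrix.mulVec_sum]
    have h3 : ∀ q : E', (ext π.ρ (wE j E')).mulVec (w q) = ∑ q' : E', w q' := by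
      intro q
      rw [wE, map_sum, Matrix.sum_mulVec]
      have h4 : ∀ e : E', (ext π.ρ (MonoidAlgebra.single (j (e : C)) 1)).mulVec (w q) = w (e * q) := by
        intro e
        rw [ext_single, one_smul, hwE]
      rw [Finset.sum_congr rfl fun e _ => h4 e]
      exact Fintype.sum_equiv (Equiv.mulRight q) _ _ fun e => rfl
    rw [Finset.sum_congr rfl fun q _ => by rw [Matrix.mulVec_smul, h3 q], ← Finset.sum_smul, Finset.smul_sum]
  have key : ∀ c, (ext π.ρ (XE κ j E' d.D x)).mulVec (e c) =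
      e (((Fintype.card E' : ℂ) • (1 : Matrix E' E' ℂ) + (t - 1) • Matrix.of (fun _ _ => (1 : ℂ))).mulVec c) := by
    intro c
    rw [he, he]
    have h3 : ext π.ρ (XE κ j E' d.D x) = (Fintype.card E' : ℂ) • (1 : Matrix (Fin π.n) (Fin π.n) ℂ) -
        ext π.ρ (wE j E') + ext π.ρ (wE j E') * M := by
      rw [XE, map_add, map_sub, map_mul, hM]
      congr 2
      rw [map_intCast, Int.cast_natCast]
      ext i k
      rw [Matrix.smul_apply, smul_eq_mul, Matrix.natCast_apply, Matrix.one_apply]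
      split_ifs <;> simp
    have h4 : ((Fintype.card E' : ℂ) • (1 : Matrix E' E' ℂ) + (t - 1) • Matrix.of (fun _ _ => (1 : ℂ))).mulVec c =
        (Fintype.card E' : ℂ) • c + (t - 1) • (fun _ => ∑ q, c q) := by
      rw [Matrix.add_mulVec, Matrix.smul_mulVec, Matrix.smul_mulVec, Matrix.one_mulVec]
      congr 2
      funext i
      simp [Matrix.mulVec, dotProduct]
    rw [h3, h4, Matrix.add_mulVec, Matrix.sub_mulVec, Matrix.smul_mulVec, Matrix.one_mulVec, ← Matrix.mulVec_mulVec,
      hMf, Matrix.mulVec_smul, hW, map_add, map_smul, map_smul, sub_smul, one_smul]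
    abel
  have hconj : Matrix.toLin' (ext π.ρ (XE κ j E' d.D x)) = e.conj (Matrix.toLin'
      ((Fintype.card E' : ℂ) • (1 : Matrix E' E' ℂ) + (t - 1) • Matrix.of (fun _ _ => (1 : ℂ)))) := by
    apply LinearMap.ext
    intro v
    rw [LinearEquiv.conj_apply_apply, Matrix.toLin'_apply, Matrix.toLin'_apply, ← key, LinearEquiv.apply_symm_apply]
  rw [← LinearMap.det_toLin', hconj, LinearEquiv.conj_apply, LinearMap.comp_assoc, LinearMap.det_conj,
    LinearMap.det_toLin', nrf_det, hcard]

end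

end H29SQ
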