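import Mathlib
import Pool.Agent.H29.SQ.Xe
import Pool.Agent.H29.SQ.Blk

/-!
# Reduced norms of elements which commute with a complement: the general case

`d : Dat κ j π`, `Q ≤ C` a subgroup containing the stabilizer `d.D`, `E'` a complement of `Q` in `C`, and `x` an
element of `ℤ[κ⁻¹ Q]` commuting with `j E'`.  The reduced norm of `card E' - w + w * x`, `w = ∑ e : E', j e`.

PROOF of `nr_gen`.  Let `Q' := Q.comap κ ⧸ subH κ d.D Q`.  The vectors
`b (e, q) = π(j e) π(q.out) v`, `e : E'`, `q : Q'`, are a basis: let `f : (E' × Q' → ℂ) →ₗ (Fin π.n → ℂ)`,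
`f c = ∑ c (e, q) • b (e, q)`, as in `H25SI.dat_det` (Stq.lean).  Injective by `indep_eig`: `b (e, q)` has the character
`cj (j e * q.out)⁻¹ ψ` of `κ.ker`, `ψ = resA κ d.D d.η` (`eig_conjG`); these are distinct (`d.hD`, `cj_eq`): if
`κ (j e * q.out) * κ (j e' * q'.out)⁻¹ ∈ d.D` then `e = e'` (as `d.D ≤ Q`, `Q ⊓ E' = ⊥`) and then `q = q'`.
`u_q := π(q.out) v`: for `h ∈ Q.comap κ`: `π(h) u_q = η'(cz h q) • u_{h q}` (`mul_out`, `d.hv`), so
`ext π.ρ (emH κ Q x) u_q = ∑ s, R s q • u_s`, `R = ext (indM (subH κ d.D Q) (cv (resH κ d.D Q hQ d.η))) x`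
(`ext_indM_apply`).  Surjective: the range of `f` is stable under `G`, since `g = h * j e₁` with
`h ∈ Q.comap κ`, `e₁ ∈ E'` (`Q ⊔ E' = ⊤`): `j e₁` maps `b (e, q)` to `b (e₁ e, q)`, and
`h j e = j e (j e⁻¹ h j e)` with `j e⁻¹ h j e ∈ Q.comap κ` (normal); use `π.irr`.
Since `x` commutes with `j e`: `ext π.ρ (emH κ Q x) (b (e, q)) = ∑ s, R s q • b (e, s)`, and
`W (b (e, q)) = ∑ e', b (e', q)` for `W = ext π.ρ (wE j E')`.  So `ext π.ρ (XE ..) ∘ f = f ∘ M` with `M` the matrix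
of `det_block` (Blk.lean) for this `R`, and `det` is invariant under conjugation: see the end of
`H25SI.ext_intertwine` (Irr.lean) or `LinearMap.det_conj`; `card (E' × Q') = π.n`.
-/

set_option autoImplicit false
set_option linter.unusedSectionVars false

namespace H29SQ

open H25SI H29SM
open scoped IsMulCommutative

section
variable {G : Type} [Group G] [Fintype G] {C : Type} [CommGroup C] [Fintype C] (κ : G →* C)
  (j : C →* G) [IsMulCommutative κ.ker] [Fintype κ.ker]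

theorem nr_gen (hκ : ∀ c, κ (j c) = c) {π : IrrRep G} (d : Dat κ j π) (E' Q : Subgroup C)
    [Fintype E'] [Fintype (Q.comap κ)] (hQ : d.D ≤ Q) (h1 : Q ⊓ E' = ⊥) (h2 : Q ⊔ E' = ⊤)
    [Fintype (Q.comap κ ⧸ subH κ d.D Q)] [DecidableEq (Q.comap κ ⧸ subH κ d.D Q)]
    (x : MonoidAlgebra ℤ (Q.comap κ))
    (hx : ∀ e ∈ E', MonoidAlgebra.single (j e) 1 * emH κ Q x
      = emH κ Q x * MonoidAlgebra.single (j e) 1) :
    (ext π.ρ (XE κ j E' Q x)).det = (Fintype.card E' : ℂ) ^ π.n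
      * (ext (indM (subH κ d.D Q) (cv (resH κ d.D Q hQ d.η))) x).det := by
  classical
  obtain ⟨η', hη'⟩ : ∃ η', η' = resH κ d.D Q hQ d.η := ⟨_, rfl⟩
  rw [← hη']
  obtain ⟨ψ, hψ⟩ : ∃ ψ, ψ = resA κ d.D d.η := ⟨_, rfl⟩
  have hvA : ∀ a : κ.ker, (π.ρ (a : G)).mulVec d.v = cv ψ a • d.v := fun a => by
    rw [hψ]
    exact d.hv (Subgroup.inclusion (ker_le κ d.D) a)
  let u : (Q.comap κ ⧸ subH κ d.D Q) → Fin π.n → ℂ := fun q =>
    (π.ρ ((q.out : Q.comap κ) : G)).mulVec d.v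
  have hu : ∀ (h : Q.comap κ) (q : Q.comap κ ⧸ subH κ d.D Q), (π.ρ (h : G)).mulVec (u q)
      = cv η' (cz (subH κ d.D Q) h q) • u ((h : Q.comap κ ⧸ subH κ d.D Q) * q) := by
    intro h q
    have e1 := congrArg Subtype.val (mul_out (subH κ d.D Q) h q)
    rw [Subgroup.coe_mul, Subgroup.coe_mul] at e1
    simp only [u]
    rw [Matrix.mulVec_mulVec, ← map_mul, e1, map_mul, ← Matrix.mulVec_mulVec]
    have e2 : (π.ρ ((cz (subH κ d.D Q) h q : Q.comap κ) : G)).mulVec d.v
        = cv η' (cz (subH κ d.D Q) h q) • d.v := by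
      rw [hη']
      exact d.hv ⟨_, (cz (subH κ d.D Q) h q).2⟩
    rw [e2, Matrix.mulVec_smul]
  let b : E' × (Q.comap κ ⧸ subH κ d.D Q) → Fin π.n → ℂ := fun p =>
    (π.ρ (j (p.1 : C))).mulVec (u p.2)
  have hb : ∀ p, b p = (π.ρ (j (p.1 : C) * ((p.2.out : Q.comap κ) : G))).mulVec d.v := by
    intro p
    simp only [b, u]
    rw [Matrix.mulVec_mulVec, ← map_mul]
  have hb0 : ∀ p, b p ≠ 0 := by
    intro p h
    apply d.v0
    have h3 : (π.ρ (j (p.1 : C) * ((p.2.out : Q.comap κ) : G))⁻¹).mulVec (b p) = d.v := by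
      rw [hb, Matrix.mulVec_mulVec, ← map_mul, inv_mul_cancel, map_one, Matrix.one_mulVec]
    rw [← h3, h, Matrix.mulVec_zero]
  have hbA : ∀ p, ∀ a : κ.ker, (π.ρ (a : G)).mulVec (b p)
      = cv (cj κ.ker (j (p.1 : C) * ((p.2.out : Q.comap κ) : G))⁻¹ ψ) a • b p := by
    intro p a
    rw [hb]
    exact eig_conjG κ.ker π.ρ ψ d.v hvA _ a
  let f : (E' × (Q.comap κ ⧸ subH κ d.D Q) → ℂ) →ₗ[ℂ] (Fin π.n → ℂ) := Fintype.linearCombination ℂ b
  have hf : ∀ c, f c = ∑ p, c p • b p := fun c => Fintype.linearCombination_apply _ _ _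
  have hinj : Function.Injective f := by
    rw [injective_iff_map_eq_zero]
    intro c hc
    rw [hf] at hc
    refine indep_eig κ.ker π.ρ
      (fun p : E' × (Q.comap κ ⧸ subH κ d.D Q) =>
        cj κ.ker (j (p.1 : C) * ((p.2.out : Q.comap κ) : G))⁻¹ ψ) ?_ b hb0 hbA c hc
    rintro ⟨e, q⟩ ⟨e0, q0⟩ h4
    have h5 := congrArg (cj κ.ker (j (e0 : C) * ((q0.out : Q.comap κ) : G))) h4
    simp only [cj_cjG, inv_mul_cancel, cj_oneG] at h5
    rw [cj_eq (j := j) hκ, hψ] at h5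
    have h6 := (d.hD _).1 h5
    rw [map_mul, map_inv, map_mul, map_mul, hκ, hκ] at h6
    have k1 : κ ((q.out : Q.comap κ) : G) ∈ Q := (q.out : Q.comap κ).2
    have k2 : κ ((q0.out : Q.comap κ) : G) ∈ Q := (q0.out : Q.comap κ).2
    have h7 : (e : C)⁻¹ * e0 ∈ Q := by
      have h8 := Q.mul_mem (Q.mul_mem k1 (hQ h6)) (Q.inv_mem k2)
      convert h8 using 1
      rw [mul_inv]
      calc (e : C)⁻¹ * e0 = (e : C)⁻¹ * e0 * 1 * 1 := by rw [mul_one, mul_one]
        _ = (e : C)⁻¹ * e0 * (κ ((q.out : Q.comap κ) : G) * (κ ((q.out : Q.comap κ) : G))⁻¹)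
            * (κ ((q0.out : Q.comap κ) : G) * (κ ((q0.out : Q.comap κ) : G))⁻¹) := by
          rw [mul_inv_cancel, mul_inv_cancel]
        _ = _ := by
          simp only [mul_assoc, mul_comm, mul_left_comm]
    have h9 : (e : C)⁻¹ * e0 ∈ Q ⊓ E' := ⟨h7, E'.mul_mem (E'.inv_mem e.2) e0.2⟩
    rw [h1, Subgroup.mem_bot] at h9
    have h10 : e = e0 := Subtype.ext (inv_mul_eq_one.1 h9)
    subst h10
    have h11 : q = q0 := by
      rw [← QuotientGroup.out_eq' q, ← QuotientGroup.out_eq' q0, QuotientGroup.eq]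
      have h12 : (κ ((q.out : Q.comap κ) : G))⁻¹ * κ ((q0.out : Q.comap κ) : G) ∈ d.D := by
        convert h6 using 1
        rw [mul_inv]
        calc (κ ((q.out : Q.comap κ) : G))⁻¹ * κ ((q0.out : Q.comap κ) : G)
            = (κ ((q.out : Q.comap κ) : G))⁻¹ * κ ((q0.out : Q.comap κ) : G) * ((e : C)⁻¹ * e) := by
              rw [inv_mul_cancel, mul_one]
          _ = _ := by
            simp only [mul_assoc, mul_comm, mul_left_comm]
      change κ (((q.out : Q.comap κ)⁻¹ * (q0.out : Q.comap κ) : Q.comap κ) : G) ∈ d.D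
      rw [Subgroup.coe_mul, Subgroup.coe_inv, map_mul, map_inv]
      exact h12
    rw [h11]
  have hjb : ∀ (e1 : E') (p : E' × (Q.comap κ ⧸ subH κ d.D Q)),
      (π.ρ (j (e1 : C))).mulVec (b p) = b (e1 * p.1, p.2) := by
    intro e1 p
    simp only [b]
    rw [Matrix.mulVec_mulVec, ← map_mul, ← map_mul]
    rfl
  have hstab : ∀ (g : G) (p : E' × (Q.comap κ ⧸ subH κ d.D Q)),
      ∃ (s : ℂ) (p' : E' × (Q.comap κ ⧸ subH κ d.D Q)), (π.ρ g).mulVec (b p) = s • b p' := by
    intro g p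
    have hg : κ g ∈ Q ⊔ E' := by rw [h2]; exact Subgroup.mem_top _
    obtain ⟨q1, hq1, e1, he1, hqe⟩ := Subgroup.mem_sup.1 hg
    obtain ⟨e, q⟩ := p
    have hk : κ ((j ((⟨e1, he1⟩ * e : E') : C))⁻¹ * (g * (j e1)⁻¹) * j ((⟨e1, he1⟩ * e : E') : C)) = q1 := by
      rw [map_mul, map_mul, map_mul, map_inv, map_inv, hκ, hκ, ← hqe, mul_inv_cancel_right,
        mul_comm (_)⁻¹ q1, inv_mul_cancel_right]
    obtain ⟨h, hh⟩ : ∃ h : Q.comap κ, (h : G) =
        (j ((⟨e1, he1⟩ * e : E') : C))⁻¹ * (g * (j e1)⁻¹) * j ((⟨e1, he1⟩ * e : E') : C) :=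
      ⟨⟨_, by rw [Subgroup.mem_comap, hk]; exact hq1⟩, rfl⟩
    refine ⟨cv η' (cz (subH κ d.D Q) h q), (⟨e1, he1⟩ * e, (h : Q.comap κ ⧸ subH κ d.D Q) * q), ?_⟩
    have e3 : g * j (e : C) = j ((⟨e1, he1⟩ * e : E') : C) * (h : G) := by
      rw [hh]
      have : j ((⟨e1, he1⟩ * e : E') : C) = j e1 * j (e : C) := by
        rw [← map_mul]; rfl
      rw [this]
      group
    simp only [b]
    rw [Matrix.mulVec_mulVec, ← map_mul, e3, map_mul, ← Matrix.mulVec_mulVec, hu, Matrix.mulVec_smul]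
  have hbr : ∀ p, b p ∈ LinearMap.range f := fun p => ⟨Pi.single p 1, by
    rw [hf, Finset.sum_eq_single p]
    · rw [Pi.single_eq_same, one_smul]
    · intro q _ hq
      rw [Pi.single_eq_of_ne hq, zero_smul]
    · intro hq
      exact absurd (Finset.mem_univ _) hq⟩
  have hsurj : Function.Surjective f := by
    rw [← LinearMap.range_eq_top]
    rcases π.irr (LinearMap.range f) (fun g w hw => by
      obtain ⟨c, rfl⟩ := hw
      rw [hf, Matrix.mulVec_sum]
      refine Submodule.sum_mem _ fun p _ => ?_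
      obtain ⟨s, p', hp⟩ := hstab g p
      rw [Matrix.mulVec_smul, hp]
      exact Submodule.smul_mem _ _ (Submodule.smul_mem _ _ (hbr p'))) with h | h
    · exfalso
      have h3 := hbr (1, 1)
      rw [h, Submodule.mem_bot] at h3
      exact hb0 _ h3
    · exact h
  obtain ⟨R, hR⟩ : ∃ R, R = ext (indM (subH κ d.D Q) (cv η')) x := ⟨_, rfl⟩
  rw [← hR]
  have hxu : ∀ q, (ext π.ρ (emH κ Q x)).mulVec (u q) = ∑ s, R s q • u s := by
    intro q
    have e1 : ∀ s, R s q • u s = ∑ h : Q.comap κ,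
        if s = (h : Q.comap κ ⧸ subH κ d.D Q) * q then
          ((x.coeff h : ℂ) * cv η' (cz (subH κ d.D Q) h q)) • u s else 0 := by
      intro s
      rw [hR, ext_indM_apply, Finset.sum_smul]
      refine Finset.sum_congr rfl fun h _ => ?_
      split_ifs
      · rfl
      · rw [zero_smul]
    rw [Finset.sum_congr rfl fun s _ => e1 s, Finset.sum_comm, emH, map_sum, Matrix.sum_mulVec]
    refine Finset.sum_congr rfl fun h _ => ?_
    rw [Finset.sum_ite_eq', if_pos (Finset.mem_univ _), ext_single, Matrix.smul_mulVec, hu,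
      ← smul_smul, Int.cast_smul_eq_zsmul]
  have hxb : ∀ p : E' × (Q.comap κ ⧸ subH κ d.D Q),
      (ext π.ρ (emH κ Q x)).mulVec (b p) = ∑ s, R s p.2 • b (p.1, s) := by
    intro p
    have e1 := congrArg (ext π.ρ) (hx (p.1 : C) p.1.2)
    rw [map_mul, map_mul, ext_single, one_smul] at e1
    simp only [b]
    rw [Matrix.mulVec_mulVec, ← e1, ← Matrix.mulVec_mulVec, hxu, Matrix.mulVec_sum]
    refine Finset.sum_congr rfl fun s _ => ?_
    rw [Matrix.mulVec_smul]
  have hwb : ∀ p : E' × (Q.comap κ ⧸ subH κ d.D Q),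
      (ext π.ρ (wE j E')).mulVec (b p) = ∑ e' : E', b (e', p.2) := by
    intro p
    rw [wE, map_sum, Matrix.sum_mulVec]
    have e1 : ∀ e' : E', (ext π.ρ (MonoidAlgebra.single (j (e' : C)) 1)).mulVec (b p)
        = b (e' * p.1, p.2) := by
      intro e'
      rw [ext_single, one_smul, hjb]
    rw [Finset.sum_congr rfl fun e' _ => e1 e']
    exact Fintype.sum_equiv (Equiv.mulRight p.1) _ _ fun e' => rfl
  let M : Matrix (E' × (Q.comap κ ⧸ subH κ d.D Q)) (E' × (Q.comap κ ⧸ subH κ d.D Q)) ℂ :=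
    Matrix.of fun s t => (if s = t then (Fintype.card E' : ℂ) else 0)
      - (if s.2 = t.2 then 1 else 0) + R s.2 t.2
  have hMb : ∀ t, (ext π.ρ (XE κ j E' Q x)).mulVec (b t) = ∑ s, M s t • b s := by
    intro t
    have e0 : (ext π.ρ ((Fintype.card E' : ℤ) : MonoidAlgebra ℤ G)).mulVec (b t)
        = (Fintype.card E' : ℂ) • b t := by
      rw [map_intCast, Matrix.intCast_mulVec]
      push_cast
      rfl
    rw [XE, map_add, map_sub, map_mul, Matrix.add_mulVec, Matrix.sub_mulVec, e0, hwb,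
      ← Matrix.mulVec_mulVec, hxb, Matrix.mulVec_sum]
    have e1 : ∀ s, (ext π.ρ (wE j E')).mulVec (R s t.2 • b (t.1, s))
        = ∑ e' : E', R s t.2 • b (e', s) := by
      intro s
      rw [Matrix.mulVec_smul, hwb, Finset.smul_sum]
    rw [Finset.sum_congr rfl fun s _ => e1 s]
    have e2 : ∀ s, M s t • b s = (if s = t then (Fintype.card E' : ℂ) else 0) • b s
        - (if s.2 = t.2 then (1 : ℂ) else 0) • b s + R s.2 t.2 • b s := by
      intro s
      rw [← sub_smul, ← add_smul]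
      rfl
    rw [Finset.sum_congr rfl fun s _ => e2 s, Finset.sum_add_distrib, Finset.sum_sub_distrib]
    congr 1
    · congr 1
      · rw [Finset.sum_eq_single t]
        · rw [if_pos rfl]
        · intro s _ hs
          rw [if_neg hs, zero_smul]
        · intro hs
          exact absurd (Finset.mem_univ _) hs
      · rw [Fintype.sum_prod_type]
        refine Finset.sum_congr rfl fun e' _ => ?_
        rw [Finset.sum_eq_single t.2]
        · rw [if_pos rfl, one_smul]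
        · intro s _ hs
          rw [if_neg hs, zero_smul]
        · intro hs
          exact absurd (Finset.mem_univ _) hs
    · rw [Fintype.sum_prod_type, Finset.sum_comm]
  have hint : ∀ c, (ext π.ρ (XE κ j E' Q x)).mulVec (f c) = f (M.mulVec c) := by
    intro c
    rw [hf, hf, Matrix.mulVec_sum]
    have e1 : ∀ t, (ext π.ρ (XE κ j E' Q x)).mulVec (c t • b t) = ∑ s, (M s t * c t) • b s := by
      intro t
      rw [Matrix.mulVec_smul, hMb, Finset.smul_sum]
      refine Finset.sum_congr rfl fun s _ => ?_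
      rw [smul_smul, mul_comm]
    rw [Finset.sum_congr rfl fun t _ => e1 t, Finset.sum_comm]
    refine Finset.sum_congr rfl fun s _ => ?_
    rw [Matrix.mulVec, dotProduct, Finset.sum_smul]
  let e := LinearEquiv.ofBijective f ⟨hinj, hsurj⟩
  have h3 : Matrix.toLin' (ext π.ρ (XE κ j E' Q x)) = e.conj (Matrix.toLin' M) := by
    apply LinearMap.ext
    intro w
    obtain ⟨c, rfl⟩ := e.surjective w
    rw [LinearEquiv.conj_apply_apply, Matrix.toLin'_apply, Matrix.toLin'_apply,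
      LinearEquiv.symm_apply_apply]
    exact hint c
  have h4 : (ext π.ρ (XE κ j E' Q x)).det = M.det := by
    rw [← LinearMap.det_toLin', h3, ← LinearMap.det_toLin' M]
    rw [LinearEquiv.conj_apply, LinearMap.comp_assoc]
    exact LinearMap.det_conj _ e
  have hcard : Fintype.card (E' × (Q.comap κ ⧸ subH κ d.D Q)) = π.n := by
    have := e.finrank_eq
    rwa [Module.finrank_fintype_fun_eq_card, Module.finrank_fintype_fun_eq_card,
      Fintype.card_fin] at this
  have h5 : M.det = (Fintype.card E' : ℂ) ^ Fintype.card (E' × (Q.comap κ ⧸ subH κ d.D Q)) * R.det :=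
    det_block R
  rw [h4, h5, hcard]

end

end H29SQ
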