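import Mathlib
import Pool.Agent.H29.SQ.Ip
import Pool.Agent.H29.SM.Cen

/-!
# Central elements with given values at the characters fixed by `D'`

`D' ≤ EE q C` (all elements of `D'` have order prime to `p`: `d ^ q.u = 1`).

PROOF of `exists_rE`: copy of `H29SM.exists_r` (SM/Rd.lean; copy the private lemmas `Rd_*`, new names).  There
`hcomm` is used only for the elements `c ∈ D`, in the form `φ (c ^ q.u) (..) = ..`, and here `c ^ q.u = 1` for
`c ∈ D'`, so no hypothesis `hcomm` is needed.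

PROOF of `exists_zE`.  As `H29SM.exists_central` (SM/Cen.lean) with `c = 1`.  Take `N, nk` from `H29SM.exists_nK`,
`u := ∏ c : C, if c ∈ D' then nk c else N`, so `ev ψ u = N ^ card C` if `Fx κ j q c ψ` for all `c ∈ D'`, else `0`; `r` from
`exists_rE`; `y := u * ∑ a, single (r a) (x.coeff a)`, `ev ψ y = if (∀ c ∈ D', Fx κ j q c ψ) then N ^ card C * ev (ψ.comp r) x
else 0`.  `ev (cj κ.ker (j c) ψ) y = ev ψ y`: the condition is invariant (`Fx_cj_iff`), and if it holds `ψ.comp r` is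
fixed by `D'` (property 2), `(cj κ.ker (j c) ψ).comp r = cj κ.ker (j c) (ψ.comp r)` (property 1), use `hx`.
So `z := emb κ.ker y` is central (`emb_center`, `inv_of_evC`, see `exists_central`), and its value at `π` is
`ev (resA κ d.D d.η) y` (`piece_value` with `c = 1`).  If `D' ≤ d.D`, `ψ = resA κ d.D d.η` is fixed by `D'` (`d.hD`), so the
condition holds (`Fx_of_cj`) and `ψ.comp r = ψ` (property 3).
-/

set_option autoImplicit false
set_option linter.unusedSectionVars false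

namespace H29SQ

open H25SI H29SM
open scoped IsMulCommutative

/-- the product over the conjugates by the elements of a subgroup -/
private def Ze_N {A C : Type} [CommGroup A] [CommGroup C] (φ : C →* MulAut A) (D' : Subgroup C)
    [Fintype D'] : A →* A where
  toFun a := ∏ d : D', φ (d : C) a
  map_one' := by simp
  map_mul' a b := by simp [Finset.prod_mul_distrib]

private theorem Ze_N_apply {A C : Type} [CommGroup A] [CommGroup C] (φ : C →* MulAut A)
    (D' : Subgroup C) [Fintype D'] (a : A) : Ze_N φ D' a = ∏ d : D', φ (d : C) a := rfl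

private theorem Ze_comm {A C : Type} [CommGroup A] [CommGroup C] (φ : C →* MulAut A) (c d : C)
    (a : A) : φ c (φ d a) = φ d (φ c a) := by
  rw [← MulAut.mul_apply, ← MulAut.mul_apply, ← map_mul, ← map_mul, mul_comm]

private theorem Ze_N_phi {A C : Type} [CommGroup A] [CommGroup C] (φ : C →* MulAut A)
    (D' : Subgroup C) [Fintype D'] (c : C) (a : A) : Ze_N φ D' (φ c a) = φ c (Ze_N φ D' a) := by
  rw [Ze_N_apply, Ze_N_apply, map_prod]
  exact Finset.prod_congr rfl fun d _ => Ze_comm φ _ _ _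

private theorem Ze_N_mem {A C : Type} [CommGroup A] [CommGroup C] (φ : C →* MulAut A)
    (D' : Subgroup C) [Fintype D'] (e : C) (he : e ∈ D') (a : A) :
    Ze_N φ D' (φ e a) = Ze_N φ D' a := by
  rw [Ze_N_apply, Ze_N_apply]
  refine Fintype.prod_equiv (Equiv.mulRight (⟨e, he⟩ : D')) _ _ fun d => ?_
  rw [Equiv.coe_mulRight, Subgroup.coe_mul, map_mul, MulAut.mul_apply]

private theorem Ze_abs {A C : Type} [CommGroup A] [CommGroup C] [Finite C] {n : ℕ}
    (hA : ∀ a : A, a ^ n = 1) (hC : ∀ c : C, c ^ n = 1) (p : ℕ) [Fact p.Prime] (q : PQ p n)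
    (φ : C →* MulAut A) (D' : Subgroup C) (hD : ∀ c ∈ D', c ^ q.u = 1) : ∃ r : A →* A,
      (∀ (c : C) (a : A), r (φ c a) = φ c (r a)) ∧
      (∀ ψ : A →* ℂˣ, (∀ c ∈ D', ∀ a, ψ (φ c a) ^ q.v = ψ a ^ q.v) →
        ∀ c ∈ D', ∀ a, ψ (r (φ c a)) = ψ (r a)) ∧
      (∀ ψ : A →* ℂˣ, (∀ c ∈ D', ∀ a, ψ (φ c a) = ψ a) → ∀ a, ψ (r a) = ψ a) := by
  classical
  have : Fintype D' := Fintype.ofFinite D'
  have hp : p.Prime := Fact.out
  have hcop : Nat.Coprime (Nat.card D') (p ^ q.r) := by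
    refine Nat.Coprime.pow_right _ ?_
    rw [Nat.coprime_comm, hp.coprime_iff_not_dvd]
    intro hdvd
    obtain ⟨d, hd⟩ := exists_prime_orderOf_dvd_card' p hdvd
    have h1 : (d : C) ^ q.u = 1 := hD _ d.2
    have h2 : (d : C) ^ q.v = d := by
      have h3 := uv_mul q (d : C) (hC _)
      rwa [h1, one_mul] at h3
    have h3 : (d : C) ^ q.m = 1 := by
      have h4 := v_pow q (d : C) (hC _)
      rwa [h2] at h4
    have h4 : d ^ q.m = 1 := by
      apply Subtype.ext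
      rw [Subgroup.coe_pow, h3, Subgroup.coe_one]
    have h5 := orderOf_dvd_of_pow_eq_one h4
    rw [hd] at h5
    exact q.hm h5
  obtain ⟨w, hw⟩ : ∃ w, Nat.card D' * w ≡ 1 [MOD p ^ q.r] := by
    refine ⟨Nat.card D' ^ (Nat.totient (p ^ q.r) - 1), ?_⟩
    have h1 : 0 < Nat.totient (p ^ q.r) := Nat.totient_pos.2 (pow_pos hp.pos _)
    have h2 : Nat.card D' * Nat.card D' ^ (Nat.totient (p ^ q.r) - 1) =
        Nat.card D' ^ Nat.totient (p ^ q.r) := by
      rw [← pow_succ', Nat.sub_add_cancel h1]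
    rw [h2]
    exact Nat.ModEq.pow_totient hcop
  let r : A →* A := powMonoidHom q.v * (powMonoidHom w).comp ((Ze_N φ D').comp (powMonoidHom q.u))
  have hr : ∀ a, r a = a ^ q.v * (Ze_N φ D' (a ^ q.u)) ^ w := fun a => rfl
  refine ⟨r, ?_, ?_, ?_⟩
  · intro c a
    rw [hr, hr, map_mul (φ c), map_pow (φ c) a q.v, map_pow (φ c) _ w, ← Ze_N_phi,
      map_pow (φ c) a q.u]
  · intro ψ hψ c hc a
    have h1 : Ze_N φ D' ((φ c a) ^ q.u) = Ze_N φ D' (a ^ q.u) := by
      rw [← map_pow (φ c) a q.u]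
      exact Ze_N_mem φ D' c hc _
    rw [hr, hr, map_mul ψ, map_mul ψ, map_pow ψ (φ c a) q.v, hψ c hc a, h1, map_pow ψ a q.v]
  · intro ψ hψ a
    have h1 : ψ (Ze_N φ D' (a ^ q.u)) = ψ (a ^ q.u) ^ Nat.card D' := by
      rw [Ze_N_apply, map_prod]
      have h2 : ∀ d ∈ (Finset.univ : Finset D'), ψ (φ (d : C) (a ^ q.u)) = ψ (a ^ q.u) :=
        fun d _ => hψ _ d.2 _
      rw [Finset.prod_congr rfl h2, Finset.prod_const, Finset.card_univ, Nat.card_eq_fintype_card]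
    have h2 : (ψ (a ^ q.u)) ^ (p ^ q.r) = 1 := by
      rw [← map_pow, u_pow q a (hA a), map_one]
    have h3 : (ψ (a ^ q.u)) ^ (Nat.card D' * w) = ψ (a ^ q.u) := by
      have h4 := pow_congr (ψ (a ^ q.u)) h2 hw
      rwa [pow_one] at h4
    rw [hr, map_mul, map_pow ψ (Ze_N φ D' (a ^ q.u)), h1, ← pow_mul, h3, ← map_mul, mul_comm,
      uv_mul q a (hA a)]

section
variable {G : Type} [Group G] [Fintype G] {C : Type} [CommGroup C] [Fintype C] (κ : G →* C)
  (j : C →* G) [IsMulCommutative κ.ker] [Fintype κ.ker]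

theorem exists_rE (hκ : ∀ c, κ (j c) = c) (p : ℕ) [Fact p.Prime] (q : PQ p (Nat.card G))
    (D' : Subgroup C) (hD : D' ≤ EE q C) : ∃ r : κ.ker →* κ.ker,
      (∀ (c : C) (a : κ.ker), r (MulAut.conjNormal (j c) a) = MulAut.conjNormal (j c) (r a)) ∧
      (∀ ψ : κ.ker →* ℂˣ, (∀ c ∈ D', Fx κ j q c ψ) →
        ∀ c ∈ D', cj κ.ker (j c) (ψ.comp r) = ψ.comp r) ∧
      (∀ ψ : κ.ker →* ℂˣ, (∀ c ∈ D', cj κ.ker (j c) ψ = ψ) → ψ.comp r = ψ) := by
  have hD' : ∀ c ∈ D', c ^ q.u = 1 := by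
    intro c hc
    have h1 := hD hc
    rw [EE, MonoidHom.mem_ker] at h1
    exact h1
  obtain ⟨r, h1, h2, h3⟩ := Ze_abs (A := κ.ker) (C := C) (pow_cardA κ) (pow_cardC κ j hκ) p q
    ((MulAut.conjNormal : G →* MulAut κ.ker).comp j) D' hD'
  refine ⟨r, h1, ?_, ?_⟩
  · intro ψ hψ c hc
    refine MonoidHom.ext fun a => ?_
    refine h2 ψ (fun c hc a => ?_) c hc a
    exact DFunLike.congr_fun (hψ c hc) a
  · intro ψ hψ
    refine MonoidHom.ext fun a => ?_
    refine h3 ψ (fun c hc a => ?_) a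
    exact DFunLike.congr_fun (hψ c hc) a

theorem exists_zE (hκ : ∀ c, κ (j c) = c) (p : ℕ) [Fact p.Prime] (q : PQ p (Nat.card G))
    (D' : Subgroup C) (hD : D' ≤ EE q C) (x : MonoidAlgebra ℤ κ.ker)
    (hx : ∀ (c : C) (ψ : κ.ker →* ℂˣ), (∀ d ∈ D', cj κ.ker (j d) ψ = ψ) →
      ev (cj κ.ker (j c) ψ) x = ev ψ x) :
    ∃ N : ℤ, ¬ (p : ℤ) ∣ N ∧ ∃ z ∈ Subring.center (MonoidAlgebra ℤ G),
      ∀ (π : IrrRep G) (d : Dat κ j π), D' ≤ d.D →
        centralValue z π = (N : ℂ) * ev (resA κ d.D d.η) x := by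
  classical
  obtain ⟨N, nk, hN, hnk⟩ := exists_nK κ j p q
  obtain ⟨r, hr1, hr2, hr3⟩ := exists_rE κ j hκ p q D' hD
  have hu : ∀ ψ : κ.ker →* ℂˣ, ev ψ (∏ c : C, if c ∈ D' then nk c else ((N : ℤ) : MonoidAlgebra ℤ κ.ker)) =
      if ∀ c ∈ D', Fx κ j q c ψ then (((N ^ Fintype.card C : ℕ) : ℤ) : ℂ) else 0 := by
    intro ψ
    rw [map_prod]
    have h1 : ∀ c : C, ev ψ (if c ∈ D' then nk c else ((N : ℤ) : MonoidAlgebra ℤ κ.ker))
        = if (c ∈ D' → Fx κ j q c ψ) then (N : ℂ) else 0 := by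
      intro c
      by_cases hc : c ∈ D'
      · rw [if_pos hc, hnk]
        by_cases h : Fx κ j q c ψ
        · rw [if_pos h, if_pos fun _ => h]
        · rw [if_neg h, if_neg fun hh => h (hh hc)]
      · rw [if_neg hc, map_intCast, if_pos fun hh => absurd hh hc]
        simp
    rw [Finset.prod_congr rfl fun c _ => h1 c]
    by_cases h : ∀ c ∈ D', Fx κ j q c ψ
    · rw [if_pos h, Finset.prod_congr rfl fun c _ => if_pos (h c), Finset.prod_const,
        Finset.card_univ]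
      push_cast
      rfl
    · rw [if_neg h]
      push Not at h
      obtain ⟨c, hc, hcF⟩ := h
      exact Finset.prod_eq_zero (Finset.mem_univ c) (if_neg fun hh => hcF (hh hc))
  obtain ⟨y, hy⟩ : ∃ y : MonoidAlgebra ℤ κ.ker, ∀ ψ : κ.ker →* ℂˣ, ev ψ y
      = if ∀ c ∈ D', Fx κ j q c ψ then (((N ^ Fintype.card C : ℕ) : ℤ) : ℂ) * ev (ψ.comp r) x else 0 := by
    refine ⟨(∏ c : C, if c ∈ D' then nk c else ((N : ℤ) : MonoidAlgebra ℤ κ.ker)) *
      ∑ a, MonoidAlgebra.single (r a) (x.coeff a), fun ψ => ?_⟩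
    rw [map_mul, hu, ite_mul, zero_mul]
    congr 2
    rw [map_sum, ev_sum]
    refine Finset.sum_congr rfl fun a _ => ?_
    rw [ev_single]
    rfl
  have hcomp : ∀ (c' : C) (ψ : κ.ker →* ℂˣ),
      (cj κ.ker (j c') ψ).comp r = cj κ.ker (j c') (ψ.comp r) := by
    intro c' ψ
    apply MonoidHom.ext
    intro a
    have e1 : ((cj κ.ker (j c') ψ).comp r) a = ψ (MulAut.conjNormal (j c') (r a)) := rfl
    have e2 : (cj κ.ker (j c') (ψ.comp r)) a = ψ (r (MulAut.conjNormal (j c') a)) := rfl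
    rw [e1, e2, hr1]
  have hinv : ∀ (c' : C) (ψ : κ.ker →* ℂˣ), ev (cj κ.ker (j c') ψ) y = ev ψ y := by
    intro c' ψ
    rw [hy, hy]
    by_cases h : ∀ c ∈ D', Fx κ j q c ψ
    · rw [if_pos h, if_pos fun c hc => (Fx_cj_iff κ j p q ψ c c').2 (h c hc), hcomp,
        hx c' (ψ.comp r) (hr2 ψ h)]
    · rw [if_neg h, if_neg fun hh => h fun c hc => (Fx_cj_iff κ j p q ψ c c').1 (hh c hc)]
  have hcen : emb κ.ker y ∈ Subring.center (MonoidAlgebra ℤ G) :=
    emb_center κ.ker _ (inv_of_evC κ j hκ _ hinv)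
  refine ⟨((N ^ Fintype.card C : ℕ) : ℤ), ?_, emb κ.ker y, hcen, ?_⟩
  · intro hd
    exact hN ((Fact.out : p.Prime).dvd_of_dvd_pow (Int.natCast_dvd_natCast.1 hd))
  · intro π d hdD
    have hfix : ∀ c ∈ D', cj κ.ker (j c) (resA κ d.D d.η) = resA κ d.D d.η :=
      fun c hc => (d.hD c).2 (hdD hc)
    rw [emb_value κ j d y hcen, hy, if_pos fun c hc => Fx_of_cj κ j p q _ c (hfix c hc), hr3 _ hfix]

end

end H29SQ
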