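import Mathlib
import Pool.Agent.H29.SQ.Ze
import Pool.Agent.H29.SM.Jf

/-!
# Functions supported on the representations with stabilizer exactly `D'`

`D' ≤ EE q C`, `t D'` an element of `ℤ[κ⁻¹ D']` with invariant values, which vanish at the characters `η` whose
restriction to `κ.ker` is fixed by all `p`-elements of `C`; every subgroup of `C` contains all or only the trivial
`p`-element (`hP`); `e ∈ Ip` is the function detecting `d.D ⊓ EE q C = D'`.

PROOF of `exists_small`.  `x_c := be κ j D' (t D') c` for `c : D'`, so (`H25SI.ev_be`)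
`ev η (t D') = ∑ c : D', ev (resA κ D' η) x_c * cv (resD κ j hκ D' η) c`.
(1) For `ψ` fixed by `D'`: `ev (cj κ.ker (j g) ψ) x_c = ev ψ x_c`: proof of `H25SI.be_conj` with `hinv` instead of
`hb` (`exists_eta`, `sepC`).
(2) For `ψ` fixed by `D'` and by all `c` with `c ^ q.v = 1`: `ev ψ x_c = 0`: for every `μ : D' →* ℂˣ` there is
`η` with `resA = ψ`, `resD = μ` (`exists_eta`), so `∑ c, ev ψ x_c * μ c = 0` by `hfix`; `sepC`.
By `exists_zE` (with (1)) there are `N_c`, `z_c` central with value `N_c * ev (resA κ d.D d.η) x_c` at all `π` with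
`D' ≤ d.D`.  By `H29SM.exists_J` (with `D = D'`) there are `m` and `J_c` in the integrality ring, `c ∈ D'`, with
`J_c π = m * dval κ j d (j c)` if `d.D ⊔ EE q C = D' ⊔ EE q C = EE q C` and `d.D ⊓ EE q C = D' ⊓ EE q C = D'`.
`f := ∑ c : D', (1 / (N_c m)) * centralValue z_c * J_c * e`, which is in `Ip` (`Ip_div`, `Ip_of_mem`).
At `π`: if `d.D ⊓ EE q C ≠ D'`, `e π = 0`, and `d.D ≠ D'`.  If `d.D ⊓ EE q C = D'`: then `D' ≤ d.D`.  By `hP`:
either `d.D` contains all `c` with `c ^ q.v = 1`: then `ψ = resA κ d.D d.η` is fixed by them and by `D'` (`d.hD`), so all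
`ev ψ x_c = 0` by (2), `f π = 0`; and `d.D ≠ D'` unless also `D'` contains them (then `c ^ q.v = 1`, `c ^ q.u = 1` gives
`c = 1`, the other case).  Or `d.D` contains no `c ≠ 1` with `c ^ q.v = 1`: then `d.D ≤ EE q C` (`c ∈ d.D`, `c ^ q.u ∈ d.D`,
`(c ^ q.u) ^ q.v = 1`, so `c ^ q.u = 1`), so `d.D = D'`, and
`f π = ∑ c, ev ψ x_c * dval κ j d (j c) = ev d.η (t d.D)` (`ev_be`, `dval_resD`).
-/

set_option autoImplicit false
set_option linter.unusedSectionVars false

namespace H29SQ

open H25SI H29SM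
open scoped IsMulCommutative

section
variable {G : Type} [Group G] [Fintype G] {C : Type} [CommGroup C] [Fintype C] (κ : G →* C)
  (j : C →* G) [IsMulCommutative κ.ker] [Fintype κ.ker]

theorem be_conjE (hκ : ∀ c, κ (j c) = c) (D : Subgroup C) (b : MonoidAlgebra ℤ (D.comap κ))
    (hinv : ∀ (c : C) (η : D.comap κ →* ℂˣ), ev (cj (D.comap κ) (j c) η) b = ev η b)
    (ψ : κ.ker →* ℂˣ) (hD : ∀ c ∈ D, cj κ.ker (j c) ψ = ψ) (c' : C) (c : D) :
    ev (cj κ.ker (j c') ψ) (be κ j D b c) = ev ψ (be κ j D b c) := by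
  classical
  have : Fintype D := Fintype.ofFinite _
  have key := sepC (fun c : D => ev (cj κ.ker (j c') ψ) (be κ j D b c) - ev ψ (be κ j D b c))
    (fun μ => by
      obtain ⟨η, h1, h2⟩ := exists_eta κ j hκ D ψ hD μ
      have h3 : resA κ D (cj (D.comap κ) (j c') η) = cj κ.ker (j c') ψ := by
        rw [← h1]
        apply MonoidHom.ext
        intro a
        have e1 : resA κ D (cj (D.comap κ) (j c') η) a
            = η (MulAut.conjNormal (j c') (Subgroup.inclusion (ker_le κ D) a)) := rfl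
        have e2 : cj κ.ker (j c') (resA κ D η) a
            = η (Subgroup.inclusion (ker_le κ D) (MulAut.conjNormal (j c') a)) := rfl
        rw [e1, e2]
        congr 1
      have h4 : resD κ j hκ D (cj (D.comap κ) (j c') η) = μ := by
        rw [← h2]
        apply MonoidHom.ext
        intro a
        have hc : j a ∈ D.comap κ := by
          rw [Subgroup.mem_comap, hκ]
          exact a.2
        have e1 : resD κ j hκ D (cj (D.comap κ) (j c') η) a
            = η (MulAut.conjNormal (j c') ⟨j a, hc⟩) := rfl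
        have e2 : resD κ j hκ D η a = η ⟨j a, hc⟩ := rfl
        rw [e1, e2]
        congr 1
        apply Subtype.ext
        rw [MulAut.conjNormal_apply, ← map_inv, ← map_mul, ← map_mul, mul_comm c', mul_assoc,
          mul_inv_cancel, mul_one]
      have h5 : ev (cj (D.comap κ) (j c') η) b = ev η b := hinv c' η
      rw [ev_be κ j hκ D b, ev_be κ j hκ D b η, h1, h2, h3, h4] at h5
      simp only [sub_mul, Finset.sum_sub_distrib]
      rw [sub_eq_zero]
      exact h5)
  have := congrFun key c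
  rw [Pi.zero_apply, sub_eq_zero] at this
  exact this

theorem be_zeroE (hκ : ∀ c, κ (j c) = c) (D : Subgroup C) (b : MonoidAlgebra ℤ (D.comap κ))
    (P : C → Prop)
    (hfix : ∀ η : D.comap κ →* ℂˣ,
      (∀ c : C, P c → cj κ.ker (j c) (resA κ D η) = resA κ D η) → ev η b = 0)
    (ψ : κ.ker →* ℂˣ) (hD : ∀ c ∈ D, cj κ.ker (j c) ψ = ψ)
    (hP : ∀ c : C, P c → cj κ.ker (j c) ψ = ψ) (c : D) : ev ψ (be κ j D b c) = 0 := by
  classical
  have : Fintype D := Fintype.ofFinite _
  have key := sepC (fun c : D => ev ψ (be κ j D b c)) (fun μ => by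
    obtain ⟨η, h1, h2⟩ := exists_eta κ j hκ D ψ hD μ
    have h5 := hfix η (by rw [h1]; exact hP)
    rw [ev_be κ j hκ D b η, h1, h2] at h5
    exact h5)
  exact congrFun key c

theorem ev_dat_sum (hκ : ∀ c, κ (j c) = c) (D : Subgroup C) [Fintype D]
    (t : ∀ D : Subgroup C, MonoidAlgebra ℤ (D.comap κ)) {π : IrrRep G} (d : Dat κ j π)
    (h : d.D = D) : ev d.η (t d.D)
      = ∑ c : D, ev (resA κ d.D d.η) (be κ j D (t D) c) * dval κ j d (j (c : C)) := by
  subst h
  rw [ev_be κ j hκ]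
  exact Finset.sum_congr rfl fun c _ => by rw [dval_resD κ j hκ d c]

open Classical in
theorem exists_small (hκ : ∀ c, κ (j c) = c) (p : ℕ) [Fact p.Prime] (q : PQ p (Nat.card G))
    (hP : ∀ D : Subgroup C, (∀ c ∈ D, c ^ q.v = 1 → c = 1) ∨ (∀ c : C, c ^ q.v = 1 → c ∈ D))
    (D' : Subgroup C) (hD : D' ≤ EE q C) (t : ∀ D : Subgroup C, MonoidAlgebra ℤ (D.comap κ))
    (hinv : ∀ (c : C) (η : D'.comap κ →* ℂˣ), ev (cj (D'.comap κ) (j c) η) (t D') = ev η (t D'))
    (hfix : ∀ η : D'.comap κ →* ℂˣ,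
      (∀ c : C, c ^ q.v = 1 → cj κ.ker (j c) (resA κ D' η) = resA κ D' η) → ev η (t D') = 0)
    (e : IrrRep G → ℂ) (he : e ∈ Ip G p)
    (hev : ∀ (π : IrrRep G) (d : Dat κ j π), e π = if d.D ⊓ EE q C = D' then 1 else 0) :
    ∃ f ∈ Ip G p, ∀ (π : IrrRep G) (d : Dat κ j π),
      f π = if d.D = D' then ev d.η (t d.D) else 0 := by
  classical
  have i1 : Fintype D' := Fintype.ofFinite _
  have hcard : ∀ c : C, c ^ Nat.card G = 1 := pow_cardC κ j hκ
  have hsup : D' ⊔ EE q C = EE q C := sup_eq_right.2 hD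
  have hinf : D' ⊓ EE q C = D' := inf_eq_left.2 hD
  have hx : ∀ c : D', ∃ N : ℤ, ¬ (p : ℤ) ∣ N ∧ ∃ z ∈ Subring.center (MonoidAlgebra ℤ G),
      ∀ (π : IrrRep G) (d : Dat κ j π), D' ≤ d.D →
        centralValue z π = (N : ℂ) * ev (resA κ d.D d.η) (be κ j D' (t D') c) := fun c =>
    exists_zE κ j hκ p q D' hD _ fun c' ψ hψ => be_conjE κ j hκ D' (t D') hinv ψ hψ c' c
  choose N hN z hz hzv using hx
  obtain ⟨m, hm, hJ⟩ := exists_J κ j hκ p q D'
  choose J hJm hJv using fun c : D' => hJ c c.2 (hD c.2)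
  have hNm : ∀ c, ¬ (p : ℤ) ∣ N c * m := by
    intro c h
    rcases (Nat.prime_iff_prime_int.1 (Fact.out : p.Prime)).dvd_or_dvd h with h1 | h1
    · exact hN c h1
    · exact hm h1
  have hNm0 : ∀ c, ((N c * m : ℤ) : ℂ) ≠ 0 := by
    intro c h
    rw [Int.cast_eq_zero] at h
    exact hNm c (h ▸ dvd_zero _)
  refine ⟨∑ c : D', fun π => ((N c * m : ℤ) : ℂ)⁻¹ * (centralValue (z c) π * J c π * e π), ?_, ?_⟩
  · refine Subring.sum_mem _ fun c _ => Ip_div p (N c * m) (hNm c) ?_
    have e1 : (N c * m) • (fun π => ((N c * m : ℤ) : ℂ)⁻¹ * (centralValue (z c) π * J c π * e π))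
        = centralValue (z c) * J c * e := by
      funext π
      rw [Pi.smul_apply, zsmul_eq_mul, ← mul_assoc, mul_inv_cancel₀ (hNm0 c), one_mul]
      rfl
    rw [e1]
    exact Subring.mul_mem _ (Subring.mul_mem _
      (Ip_of_mem p (Subring.subset_closure (Or.inl ⟨_, hz c, rfl⟩))) (Ip_of_mem p (hJm c))) he
  · intro π d
    rw [Finset.sum_apply]
    by_cases h1 : d.D ⊓ EE q C = D'
    swap
    · have h2 : d.D ≠ D' := fun h => h1 (by rw [h, hinf])
      rw [if_neg h2]
      refine Finset.sum_eq_zero fun c _ => ?_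
      rw [hev π d, if_neg h1, mul_zero, mul_zero]
    have hle : D' ≤ d.D := by rw [← h1]; exact inf_le_left
    have hψD : ∀ c ∈ D', cj κ.ker (j c) (resA κ d.D d.η) = resA κ d.D d.η := fun c hc =>
      (d.hD c).2 (hle hc)
    rcases hP d.D with hb | hb
    · have h3 : d.D ≤ EE q C := by
        intro c hc
        rw [EE, MonoidHom.mem_ker]
        exact hb (c ^ q.u) (d.D.pow_mem hc _) (u_v q c (hcard c))
      have h4 : d.D = D' := by rw [← h1, inf_eq_left.2 h3]
      rw [if_pos h4, ev_dat_sum κ j hκ D' t d h4]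
      refine Finset.sum_congr rfl fun c _ => ?_
      have h5 : d.D ⊔ EE q C = D' ⊔ EE q C := by rw [h4]
      have h6 : d.D ⊓ EE q C = D' ⊓ EE q C := by rw [h4]
      rw [hzv c π d hle, hJv c π d h5, if_pos h6, hev π d, if_pos h1, mul_one, inv_mul_eq_iff_eq_mul₀ (hNm0 c)]
      push_cast
      ring
    · have h7 : ∀ c : D', ev (resA κ d.D d.η) (be κ j D' (t D') c) = 0 := fun c =>
        be_zeroE κ j hκ D' (t D') (fun c => c ^ q.v = 1) hfix _ hψD
          (fun c hc => (d.hD c).2 (hb c hc)) c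
      have h8 : (if d.D = D' then ev d.η (t d.D) else 0 : ℂ) = 0 := by
        split_ifs with h9
        · rw [ev_dat_sum κ j hκ D' t d h9]
          exact Finset.sum_eq_zero fun c _ => by rw [h7, zero_mul]
        · rfl
      rw [h8]
      refine Finset.sum_eq_zero fun c _ => ?_
      rw [hzv c π d hle, h7, mul_zero, zero_mul, zero_mul, mul_zero]

end

end H29SQ
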