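import Mathlib
import Pool.Agent.H29.SQ.Ip

/-!
# Determinants of induced representations and conjugation

PROOF of `det_aut`.  `K` finite, `H` normal, `α : K ≃* K` with `α h ∈ H ↔ h ∈ H`, and `η, η' : H →* ℂˣ` with
`η' h = η (α h)`.  `α` induces a permutation `ᾱ` of `K ⧸ H`.  For `t : K ⧸ H` put `k_t := (α t.out)⁻¹ * (ᾱ t).out ∈ H`.
With `ext_indM_apply`: entry `(s, t)` of `M' := ext (indM H (cv η')) x` is
`∑ k, [s = k t] x k * η (α (cz k t))`, and entry `(ᾱ s, ᾱ t)` of `M := ext (indM H (cv η)) (push α x)` is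
`∑ k, [ᾱ s = α k * ᾱ t] x k * η (cz (α k) (ᾱ t))`; the conditions are equivalent, and, if `s = k t`,
`cz (α k) (ᾱ t) = ((ᾱ s).out)⁻¹ * α k * (ᾱ t).out = k_s⁻¹ * α (cz k t) * k_t`.  So
`M (ᾱ s) (ᾱ t) = η(k_s)⁻¹ * M' s t * η(k_t)`: `M` and `M'` have the same determinant (diagonal conjugation, as in the proof
of `H25SI.det_extend`, and `Matrix.det_submatrix_equiv_self` / `Matrix.det_reindex_self`).

PROOF of `det_conj`.  `c = c₁ * c₂`, `c₁ ∈ Q`, `c₂ ∈ E'`, and `cj H (j (c₁ * c₂)) η = cj H (j c₂) (cj H (j c₁) η)` or in the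
other order (`cj_cjG`), so it is enough to treat `c ∈ E'` and `c ∈ Q`.  Let `K = Q.comap κ` (normal in `G`),
`α = ` conjugation by `j c` on `K` (`MulAut.conjNormal (j c) : K ≃* K`), which preserves `subH κ D' Q`
(`D'.comap κ` is normal in `G`); `resH (cj .. (j c) η) h = resH η (α h)`.  `det_aut` gives the determinant of
`ext (indM .. η) (push α x)`.
If `c ∈ E'`: `push α x = x`, because `single (j c) 1 * emH x * single (j c)⁻¹ 1 = emH x` and `emH` is injective.
If `c ∈ Q`: `j c ∈ K`, `push α x = single (j c) 1 * x * single (j c)⁻¹ 1` in `MonoidAlgebra ℤ K`, and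
`det (M(g) M(x) M(g⁻¹)) = det M(x)`.
-/

set_option autoImplicit false
set_option linter.unusedSectionVars false

namespace H29SQ

open H25SI H29SM
open scoped IsMulCommutative

theorem det_aut {K : Type} [Group K] [Fintype K] (H : Subgroup K) [H.Normal] [Fintype (K ⧸ H)]
    [DecidableEq (K ⧸ H)] (α : K ≃* K) (hα : ∀ k, α k ∈ H ↔ k ∈ H) (η η' : H →* ℂˣ)
    (hη : ∀ h : H, η' h = η ⟨α h, (hα h).2 h.2⟩) (x : MonoidAlgebra ℤ K) :
    (ext (indM H (cv η')) x).det
      = (ext (indM H (cv η)) (∑ k : K, MonoidAlgebra.single (α k) (x.coeff k))).det := by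
  have hmap : H.map (α : K →* K) = H := by
    ext y
    constructor
    · rintro ⟨z, hz, rfl⟩
      exact (hα z).2 hz
    · intro hy
      refine ⟨α.symm y, ?_, ?_⟩
      · have h1 : α (α.symm y) ∈ H := by rwa [MulEquiv.apply_symm_apply]
        exact (hα _).1 h1
      · exact MulEquiv.apply_symm_apply α y
  obtain ⟨a, ha⟩ : ∃ a : K ⧸ H ≃* K ⧸ H, ∀ k : K, a (k : K ⧸ H) = ((α k : K) : K ⧸ H) :=
    ⟨QuotientGroup.congr H H α hmap, fun k => rfl⟩
  have hu : ∀ t : K ⧸ H, (α t.out)⁻¹ * (a t).out ∈ H := by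
    intro t
    refine QuotientGroup.eq.1 ?_
    rw [← ha, QuotientGroup.out_eq', QuotientGroup.out_eq']
  obtain ⟨u, hu'⟩ : ∃ u : K ⧸ H → H, ∀ t, ((u t : H) : K) = (α t.out)⁻¹ * (a t).out :=
    ⟨fun t => ⟨_, hu t⟩, fun t => rfl⟩
  have hcz : ∀ (k : K) (t : K ⧸ H), cz H (α k) (a t)
      = (u ((k : K ⧸ H) * t))⁻¹ * ⟨α (cz H k t : K), (hα _).2 (cz H k t).2⟩ * u t := by
    intro k t
    apply Subtype.ext
    have h1 : ((α k : K) : K ⧸ H) * a t = a ((k : K ⧸ H) * t) := by rw [map_mul, ha]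
    have h2 : (cz H (α k) (a t) : K) = (a ((k : K ⧸ H) * t)).out⁻¹ * α k * (a t).out := by
      rw [← h1]
      rfl
    have h3 : (cz H k t : K) = ((k : K ⧸ H) * t).out⁻¹ * k * t.out := rfl
    rw [h2, Subgroup.coe_mul, Subgroup.coe_mul, Subgroup.coe_inv, hu', hu']
    change _ = ((α ((k : K ⧸ H) * t).out)⁻¹ * (a ((k : K ⧸ H) * t)).out)⁻¹ * α (cz H k t : K) *
      ((α t.out)⁻¹ * (a t).out)
    rw [h3, map_mul α, map_mul α, map_inv α]
    group
  have hent : ∀ s t : K ⧸ H,
      ext (indM H (cv η)) (∑ k : K, MonoidAlgebra.single (α k) (x.coeff k)) (a s) (a t)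
        = (cv η (u s))⁻¹ * ext (indM H (cv η')) x s t * cv η (u t) := by
    intro s t
    rw [map_sum, Matrix.sum_apply, ext_sum, Matrix.sum_apply, Finset.mul_sum, Finset.sum_mul]
    refine Finset.sum_congr rfl fun k _ => ?_
    rw [ext_single, Matrix.smul_apply, Matrix.smul_apply, indM_apply, indM_apply]
    have h1 : ((α k : K) : K ⧸ H) * a t = a ((k : K ⧸ H) * t) := by rw [map_mul, ha]
    by_cases hs : s = (k : K ⧸ H) * t
    · have h2 : a s = ((α k : K) : K ⧸ H) * a t := by rw [h1, hs]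
      have h4 : cv η (u s)⁻¹ = (cv η (u s))⁻¹ := by
        rw [cv_apply, cv_apply, map_inv, Units.val_inv_eq_inv_val]
      rw [if_pos h2, if_pos hs, hcz k t, ← hs, map_mul, map_mul, h4]
      have h3 : cv η ⟨α (cz H k t : K), (hα _).2 (cz H k t).2⟩ = cv η' (cz H k t) := by
        rw [cv_apply, cv_apply, hη]
      rw [h3, zsmul_eq_mul, zsmul_eq_mul]
      ring
    · have h2 : ¬ a s = ((α k : K) : K ⧸ H) * a t := by
        rw [h1]
        exact fun h => hs (a.injective h)
      rw [if_neg h2, if_neg hs]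
      simp
  have hM : (ext (indM H (cv η)) (∑ k : K, MonoidAlgebra.single (α k) (x.coeff k))).submatrix a.toEquiv a.toEquiv
      = Matrix.diagonal (fun s => (cv η (u s))⁻¹) * ext (indM H (cv η')) x * Matrix.diagonal (fun s => cv η (u s)) := by
    ext s t
    rw [Matrix.mul_diagonal, Matrix.diagonal_mul]
    exact hent s t
  rw [← Matrix.det_submatrix_equiv_self a.toEquiv
    (ext (indM H (cv η)) (∑ k : K, MonoidAlgebra.single (α k) (x.coeff k))), hM, Matrix.det_mul, Matrix.det_mul,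
    Matrix.det_diagonal, Matrix.det_diagonal, mul_right_comm, ← Finset.prod_mul_distrib]
  rw [Finset.prod_eq_one (fun s _ => inv_mul_cancel₀ (cv_ne η (u s))), one_mul]

section
variable {G : Type} [Group G] [Fintype G] {C : Type} [CommGroup C] [Fintype C] (κ : G →* C)
  (j : C →* G)

theorem emH_coeff (Q : Subgroup C) [Fintype (Q.comap κ)] (x : MonoidAlgebra ℤ (Q.comap κ)) (h : Q.comap κ) :
    (emH κ Q x).coeff (h : G) = x.coeff h := by
  classical
  rw [emH, MonoidAlgebra.coeff_sum, Finsupp.finsetSum_apply, Finset.sum_eq_single h]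
  · simp
  · intro b _ hb
    have h1 : (b : G) ≠ (h : G) := fun h2 => hb (Subtype.ext h2)
    simp [h1]
  · intro h
    exact absurd (Finset.mem_univ _) h

theorem sum_single_coeff {K : Type} [Group K] [Fintype K] (y : MonoidAlgebra ℤ K) :
    ∑ k : K, MonoidAlgebra.single k (y.coeff k) = y := by
  classical
  ext a
  rw [MonoidAlgebra.coeff_sum, Finsupp.finsetSum_apply, Finset.sum_eq_single a]
  · simp
  · intro b _ hb
    simp [hb]
  · intro h
    exact absurd (Finset.mem_univ _) h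

theorem det_conj (hκ : ∀ c, κ (j c) = c) (D' Q E' : Subgroup C) (h : D' ≤ Q) (hE : Q ⊔ E' = ⊤)
    [Fintype (Q.comap κ)] [Fintype (Q.comap κ ⧸ subH κ D' Q)]
    [DecidableEq (Q.comap κ ⧸ subH κ D' Q)] (x : MonoidAlgebra ℤ (Q.comap κ))
    (hx : ∀ e ∈ E', MonoidAlgebra.single (j e) 1 * emH κ Q x
      = emH κ Q x * MonoidAlgebra.single (j e) 1) (c : C) (η : D'.comap κ →* ℂˣ) :
    (ext (indM (subH κ D' Q) (cv (resH κ D' Q h (cj (D'.comap κ) (j c) η)))) x).det
      = (ext (indM (subH κ D' Q) (cv (resH κ D' Q h η))) x).det := by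
  have hα : ∀ (c : C) (k : Q.comap κ), (MulAut.conjNormal (j c) : MulAut (Q.comap κ)) k ∈ subH κ D' Q ↔ k ∈ subH κ D' Q := by
    intro c k
    unfold subH
    rw [Subgroup.mem_subgroupOf, Subgroup.mem_subgroupOf, MulAut.conjNormal_apply, Subgroup.mem_comap,
      Subgroup.mem_comap, map_mul, map_mul, map_inv, mul_inv_cancel_comm]
  have step : ∀ (c : C) (η : D'.comap κ →* ℂˣ),
      (ext (indM (subH κ D' Q) (cv (resH κ D' Q h (cj (D'.comap κ) (j c) η)))) x).det
        = (ext (indM (subH κ D' Q) (cv (resH κ D' Q h η)))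
          (∑ k : Q.comap κ, MonoidAlgebra.single ((MulAut.conjNormal (j c) : MulAut (Q.comap κ)) k) (x.coeff k))).det := by
    intro c η
    refine det_aut (subH κ D' Q) (MulAut.conjNormal (j c) : MulAut (Q.comap κ)) (hα c) (resH κ D' Q h η) _ ?_ x
    intro y
    change η _ = η _
    congr 1
  have hEc : ∀ e ∈ E', ∑ k : Q.comap κ, MonoidAlgebra.single ((MulAut.conjNormal (j e) : MulAut (Q.comap κ)) k) (x.coeff k)
      = x := by
    intro e he
    have h1 : ∀ k : Q.comap κ, x.coeff k = x.coeff ((MulAut.conjNormal (j e) : MulAut (Q.comap κ)) k) := by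
      intro k
      have h2 := congrArg (fun y : MonoidAlgebra ℤ G => y.coeff (j e * (k : G))) (hx e he)
      simp only [MonoidAlgebra.coeff_single_mul_apply, MonoidAlgebra.coeff_mul_single_apply, one_mul, mul_one,
        inv_mul_cancel_left] at h2
      rw [emH_coeff] at h2
      rw [h2, ← emH_coeff κ Q x, MulAut.conjNormal_apply]
    calc ∑ k : Q.comap κ, MonoidAlgebra.single ((MulAut.conjNormal (j e) : MulAut (Q.comap κ)) k) (x.coeff k)
        = ∑ k : Q.comap κ, MonoidAlgebra.single ((MulAut.conjNormal (j e) : MulAut (Q.comap κ)) k)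
            (x.coeff ((MulAut.conjNormal (j e) : MulAut (Q.comap κ)) k)) :=
          Finset.sum_congr rfl fun k _ => by rw [← h1]
      _ = ∑ k : Q.comap κ, MonoidAlgebra.single k (x.coeff k) :=
          Equiv.sum_comp (MulAut.conjNormal (j e) : MulAut (Q.comap κ)).toEquiv
            (fun k => MonoidAlgebra.single k (x.coeff k))
      _ = x := sum_single_coeff x
  have hQc : ∀ q ∈ Q, ∀ η : D'.comap κ →* ℂˣ, (ext (indM (subH κ D' Q) (cv (resH κ D' Q h η)))
      (∑ k : Q.comap κ, MonoidAlgebra.single ((MulAut.conjNormal (j q) : MulAut (Q.comap κ)) k) (x.coeff k))).det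
      = (ext (indM (subH κ D' Q) (cv (resH κ D' Q h η))) x).det := by
    intro q hq η
    obtain ⟨g, hg⟩ : ∃ g : Q.comap κ, (g : G) = j q := ⟨⟨j q, by rw [Subgroup.mem_comap, hκ]; exact hq⟩, rfl⟩
    have h1 : ∑ k : Q.comap κ, MonoidAlgebra.single ((MulAut.conjNormal (j q) : MulAut (Q.comap κ)) k) (x.coeff k)
        = MonoidAlgebra.single g 1 * x * MonoidAlgebra.single g⁻¹ 1 := by
      conv_rhs => rw [← sum_single_coeff x]
      rw [Finset.mul_sum, Finset.sum_mul]
      refine Finset.sum_congr rfl fun k _ => ?_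
      rw [MonoidAlgebra.single_mul_single, MonoidAlgebra.single_mul_single, one_mul, mul_one]
      congr 1
      apply Subtype.ext
      rw [MulAut.conjNormal_apply, ← hg]
      rfl
    rw [h1, map_mul, map_mul, Matrix.det_mul, Matrix.det_mul, mul_right_comm, ← Matrix.det_mul, ← map_mul,
      MonoidAlgebra.single_mul_single, mul_inv_cancel, one_mul]
    have h2 : (MonoidAlgebra.single (1 : Q.comap κ) (1 : ℤ)) = 1 := rfl
    rw [h2, map_one, Matrix.det_one, one_mul]
  have hc : c ∈ Q ⊔ E' := by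
    rw [hE]
    exact Subgroup.mem_top c
  obtain ⟨q, hq, e, he, hqe⟩ := Subgroup.mem_sup.1 hc
  have h1 : cj (D'.comap κ) (j c) η = cj (D'.comap κ) (j e) (cj (D'.comap κ) (j q) η) := by
    rw [cj_cjG, ← map_mul, hqe]
  rw [h1, step e, hEc e he, step q, hQc q hq]

end

end H29SQ
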