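import Mathlib
import Pool.Agent.H29.SQ.Nrf
import Pool.Agent.H29.SQ.Nrg
import Pool.Agent.H29.SQ.Sm
import Pool.Agent.H29.SQ.Lp
import Pool.Agent.H29.SQ.Av
import Pool.Agent.H29.SQ.Tr

/-!
# Complements of squarefree order
-/

set_option autoImplicit false
set_option linter.unusedSectionVars false

namespace H29SQ

open H25SI H29SM
open scoped IsMulCommutative

section
variable {G : Type} [Group G] [Fintype G] {C : Type} [CommGroup C] [Fintype C] (κ : G →* C)
  (j : C →* G) [IsMulCommutative κ.ker] [Fintype κ.ker]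

theorem nr_full' (hκ : ∀ c, κ (j c) = c) {π : IrrRep G} (d : Dat κ j π) (E' Q : Subgroup C)
    [Fintype E'] [Fintype (Q.comap κ)] (hQ : d.D = Q) (h1 : Q ⊓ E' = ⊥) (h2 : Q ⊔ E' = ⊤)
    (x : MonoidAlgebra ℤ (Q.comap κ))
    (hx : ∀ e ∈ E', MonoidAlgebra.single (j e) 1 * emH κ Q x
      = emH κ Q x * MonoidAlgebra.single (j e) 1)
    (b : ∀ D : Subgroup C, MonoidAlgebra ℤ (D.comap κ)) (a : ℂ)
    (hval : ∀ η : Q.comap κ →* ℂˣ, ev η x = a * ev η (b Q)) :
    (ext π.ρ (XE κ j E' Q x)).det = (Fintype.card E' : ℂ) ^ π.n * (a * ev d.η (b d.D)) := by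
  subst hQ
  rw [nr_full κ j hκ d E' h1 h2 x hx, hval]

theorem nr_small' (hκ : ∀ c, κ (j c) = c) {π : IrrRep G} (d : Dat κ j π) (D' E' Q : Subgroup C)
    [Fintype E'] [Fintype (Q.comap κ)] (hD : d.D = D') (hQ : D' ≤ Q) (h1 : Q ⊓ E' = ⊥)
    (h2 : Q ⊔ E' = ⊤) [Fintype (Q.comap κ ⧸ subH κ D' Q)]
    [DecidableEq (Q.comap κ ⧸ subH κ D' Q)] (x : MonoidAlgebra ℤ (Q.comap κ))
    (hx : ∀ e ∈ E', MonoidAlgebra.single (j e) 1 * emH κ Q x
      = emH κ Q x * MonoidAlgebra.single (j e) 1)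
    (nf : ∀ D : Subgroup C, MonoidAlgebra ℤ (D.comap κ))
    (hn : ∀ η : D'.comap κ →* ℂˣ, ev η (nf D')
      = (ext (indM (subH κ D' Q) (cv (resH κ D' Q hQ η))) x).det) :
    (ext π.ρ (XE κ j E' Q x)).det = (Fintype.card E' : ℂ) ^ π.n * ev d.η (nf d.D) := by
  subst hD
  rw [nr_gen κ j hκ d E' Q hQ h1 h2 x hx, hn]

/-- the norm as element of the group ring of the smaller group -/
theorem exists_nrm' (D' Q : Subgroup C) (hQ : D' ≤ Q) [Fintype (Q.comap κ)]
    [Fintype (Q.comap κ ⧸ subH κ D' Q)] [DecidableEq (Q.comap κ ⧸ subH κ D' Q)]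
    (x : MonoidAlgebra ℤ (Q.comap κ)) :
    ∃ nf : ∀ D : Subgroup C, MonoidAlgebra ℤ (D.comap κ), ∀ η : D'.comap κ →* ℂˣ,
      ev η (nf D') = (ext (indM (subH κ D' Q) (cv (resH κ D' Q hQ η))) x).det := by
  classical
  obtain ⟨n, hn⟩ := exists_nrm (subH κ D' Q) x
  let i : subH κ D' Q →* D'.comap κ := (Subgroup.subgroupOfEquivOfLe (Subgroup.comap_mono hQ)).toMonoidHom
  refine ⟨fun D => if h : D = D' then
    h ▸ (MonoidAlgebra.mapDomainRingHom ℤ i n : MonoidAlgebra ℤ (D'.comap κ)) else 0, fun η => ?_⟩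
  rw [← hn]
  simp only [dite_true]
  have h1 : ∀ n : MonoidAlgebra ℤ (subH κ D' Q),
      ev η (MonoidAlgebra.mapDomainRingHom ℤ i n) = ev (resH κ D' Q hQ η) n := by
    intro n
    induction n using MonoidAlgebra.induction_linear with
    | zero => rw [map_zero, map_zero, map_zero]
    | add f g hf hg => rw [map_add, map_add, map_add, hf, hg]
    | single g m =>
      rw [MonoidAlgebra.mapDomainRingHom_apply, MonoidAlgebra.mapDomain_single, ev_single, ev_single]
      rfl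
  exact h1 n

theorem dim_le (hκ : ∀ c, κ (j c) = c) (π : IrrRep G) : π.n ≤ Fintype.card G := by
  classical
  obtain ⟨d⟩ := exists_dat κ j hκ π
  have h1 := dat_char hκ d 1
  rw [map_one, Matrix.trace_one, Fintype.card_fin, indChar] at h1
  have h2 : ∀ t : G, (if h : t⁻¹ * 1 * t ∈ d.D.comap κ then
      ((d.η ⟨t⁻¹ * 1 * t, h⟩ : ℂˣ) : ℂ) else 0) = 1 := by
    intro t
    have e : t⁻¹ * 1 * t = 1 := by group
    have hm : t⁻¹ * 1 * t ∈ d.D.comap κ := by rw [e]; exact Subgroup.one_mem _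
    rw [dif_pos hm]
    have e2 : (⟨t⁻¹ * 1 * t, hm⟩ : d.D.comap κ) = 1 := Subtype.ext e
    rw [e2, map_one, Units.val_one]
  rw [Finset.sum_congr rfl fun t _ => h2 t, Finset.sum_const, Finset.card_univ, nsmul_eq_mul,
    mul_one] at h1
  have h3 : 0 < Nat.card (d.D.comap κ) := Nat.card_pos
  have h4 : ((π.n * Nat.card (d.D.comap κ) : ℕ) : ℂ) = (Fintype.card G : ℕ) := by
    push_cast
    rw [h1]
    have : (Nat.card (d.D.comap κ) : ℂ) ≠ 0 := by exact_mod_cast h3.ne'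
    field_simp
  have h5 : π.n * Nat.card (d.D.comap κ) = Fintype.card G := by exact_mod_cast h4
  rw [← h5]
  exact Nat.le_mul_of_pos_right _ h3

/-- the powers `s ^ dim` are invertible in `Ip` -/
theorem inv_dim (hκ : ∀ c, κ (j c) = c) (p : ℕ) [hp : Fact p.Prime] (s : ℕ) (hs : ¬ p ∣ s) :
    (fun π : IrrRep G => ((s : ℂ) ^ π.n)⁻¹) ∈ Ip G p := by
  classical
  have h1 : (fun π : IrrRep G => ((s : ℂ) ^ π.n)) ∈ Ip G p := by
    apply Ip_of_mem
    refine Subring.subset_closure (Or.inr ⟨1, Matrix.of fun _ _ : Fin 1 => ((s : ℤ) : MonoidAlgebra ℤ G), ?_⟩)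
    funext π
    rw [reducedNorm_one, map_intCast]
    have : (((s : ℤ) : Matrix (Fin π.n) (Fin π.n) ℂ)) = (s : ℂ) • 1 := by
      rw [← Matrix.diagonal_one, ← Matrix.diagonal_smul]
      ext i k
      rw [Matrix.intCast_apply, Matrix.diagonal_apply]
      simp
    rw [this, Matrix.det_smul, Matrix.det_one, mul_one, Fintype.card_fin]
  refine Ip_inv p ((Finset.range (Fintype.card G + 1)).image fun k => (s : ℤ) ^ k) ?_ h1 ?_
  · intro t ht
    obtain ⟨k, -, rfl⟩ := Finset.mem_image.1 ht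
    intro h
    exact hs (Int.natCast_dvd_natCast.1 ((Nat.prime_iff_prime_int.1 hp.out).dvd_of_dvd_pow h))
  · intro π
    refine ⟨(s : ℤ) ^ π.n, Finset.mem_image.2 ⟨π.n, ?_, rfl⟩, by push_cast; rfl⟩
    rw [Finset.mem_range]
    exact Nat.lt_succ_of_le (dim_le κ j hκ π)

theorem mem_Y (hκ : ∀ c, κ (j c) = c) (p : ℕ) [hp : Fact p.Prime] (E' Q : Subgroup C) [Fintype E']
    [Fintype (Q.comap κ)] (hpE : ¬ p ∣ Fintype.card E') (x : MonoidAlgebra ℤ (Q.comap κ)) :
    (fun π : IrrRep G => ((Fintype.card E' : ℂ) ^ π.n)⁻¹ * (ext π.ρ (XE κ j E' Q x)).det)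
      ∈ Ip G p := by
  refine Subring.mul_mem _ (inv_dim κ j hκ p (Fintype.card E') hpE) ?_
  apply Ip_of_mem
  refine Subring.subset_closure (Or.inr ⟨1, Matrix.of fun _ _ : Fin 1 => XE κ j E' Q x, ?_⟩)
  funext π
  rw [reducedNorm_one]

open Classical in
theorem claim (hκ : ∀ c, κ (j c) = c) (p : ℕ) [hp : Fact p.Prime] (q : PQ p (Nat.card G))
    (hP : ∀ D : Subgroup C, (∀ c ∈ D, c ^ q.v = 1 → c = 1) ∨ (∀ c : C, c ^ q.v = 1 → c ∈ D))
    (Λ : (G → ℂ) → ℂ) (hΛ : IsMultiplicative Λ)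
    (b : ∀ D : Subgroup C, MonoidAlgebra ℤ (D.comap κ))
    (hb : ∀ (D : Subgroup C) (η : D.comap κ →* ℂˣ), Λ (indChar (D.comap κ) η) = ev η (b D))
    (D' Q E' : Subgroup C) (hD : D' ≤ EE q C) (hQ : D' ≤ Q) (hQP : ∀ c : C, c ^ q.v = 1 → c ∈ Q)
    (hQ3 : ∀ c ∈ Q, ∃ x : C, x ^ q.v = 1 ∧ ∃ a ∈ D', c = x * a)
    (hE1 : Q ⊓ E' = ⊥) (hE2 : Q ⊔ E' = ⊤) (hpE : ¬ p ∣ Nat.card E')
    (e : IrrRep G → ℂ) (he : e ∈ Ip G p)
    (hev : ∀ (π : IrrRep G) (d : Dat κ j π), e π = if d.D ⊓ EE q C = D' then 1 else 0)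
    (hcase : ∀ (π : IrrRep G) (d : Dat κ j π), d.D ⊓ EE q C = D' → d.D = Q ∨ d.D = D') :
    theta Λ * e ∈ Ip G p := by
  classical
  have i1 : Fintype E' := Fintype.ofFinite _
  have i2 : Fintype (Q.comap κ) := Fintype.ofFinite _
  have i3 : Fintype (Q.comap κ ⧸ subH κ D' Q) := Fintype.ofFinite _
  rw [Nat.card_eq_fintype_card] at hpE
  have hbinv : ∀ (D : Subgroup C) (c : C) (η : D.comap κ →* ℂˣ),
      ev (cj (D.comap κ) (j c) η) (b D) = ev η (b D) := by
    intro D c η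
    rw [← hb, ← hb, indChar_cjG]
  obtain ⟨x, hx, hxv⟩ := exists_avg κ j Q E' (b Q) (hbinv Q)
  obtain ⟨nf, hnf⟩ := exists_nrm' κ D' Q hQ x
  set s := Fintype.card E' with hs
  set k := ((Set.toFinite (Set.univ :
    Set ((Q.comap κ ⧸ subH κ D' Q) →* ℂˣ))).toFinset).card with hk
  have hs0 : (s : ℂ) ≠ 0 := by
    have : 0 < s := Fintype.card_pos
    exact_mod_cast this.ne'
  have hsp : ¬ (p : ℤ) ∣ (s : ℤ) := fun h => hpE (Int.natCast_dvd_natCast.1 h)
  have hskp : ¬ (p : ℤ) ∣ (s : ℤ) ^ k := fun h =>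
    hsp ((Nat.prime_iff_prime_int.1 hp.out).dvd_of_dvd_pow h)
  let t : ∀ D : Subgroup C, MonoidAlgebra ℤ (D.comap κ) := fun D => ((s : ℤ) ^ k) • b D - nf D
  have htv : ∀ (D : Subgroup C) (η : D.comap κ →* ℂˣ),
      ev η (t D) = (s : ℂ) ^ k * ev η (b D) - ev η (nf D) := by
    intro D η
    change ev η (((s : ℤ) ^ k) • b D - nf D) = _
    rw [map_sub, map_zsmul, zsmul_eq_mul]
    push_cast
    rfl
  have hinv : ∀ (c : C) (η : D'.comap κ →* ℂˣ),
      ev (cj (D'.comap κ) (j c) η) (t D') = ev η (t D') := by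
    intro c η
    rw [htv, htv, hbinv, hnf, hnf, det_conj κ j hκ D' Q E' hQ hE2 x hx c η]
  have hfix : ∀ η : D'.comap κ →* ℂˣ,
      (∀ c : C, c ^ q.v = 1 → cj κ.ker (j c) (resA κ D' η) = resA κ D' η) → ev η (t D') = 0 := by
    intro η hη
    have hf : ∀ c ∈ Q, cj κ.ker (j c) (resA κ D' η) = resA κ D' η := by
      intro c hc
      obtain ⟨y, hy, a, ha, rfl⟩ := hQ3 c hc
      have h1 : cj κ.ker (j a) (resA κ D' η) = resA κ D' η := by
        apply MonoidHom.ext
        intro z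
        have hja : j a ∈ D'.comap κ := by
          rw [Subgroup.mem_comap, hκ]
          exact ha
        have h2 : (Subgroup.inclusion (ker_le κ D') (MulAut.conjNormal (j a) z) : D'.comap κ)
            = ⟨j a, hja⟩ * Subgroup.inclusion (ker_le κ D') z * (⟨j a, hja⟩)⁻¹ := by
          apply Subtype.ext
          change ((MulAut.conjNormal (j a) z : κ.ker) : G) = _
          rw [MulAut.conjNormal_apply]
          rfl
        change η (Subgroup.inclusion (ker_le κ D') (MulAut.conjNormal (j a) z))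
          = η (Subgroup.inclusion (ker_le κ D') z)
        rw [h2, map_mul, map_mul, map_inv, mul_comm (η ⟨j a, hja⟩), mul_inv_cancel_right]
      rw [map_mul, ← cj_cjG, hη y hy]
      first
        | exact h1
        | (rw [h1]; exact hη y hy)
    obtain ⟨η₁, rfl⟩ := exists_up κ j hκ D' Q hQ η hf
    rw [htv, hnf, det_prod κ D' Q hQ η₁ x]
    have h1 : ∀ μ ∈ (Set.toFinite (Set.univ :
        Set ((Q.comap κ ⧸ subH κ D' Q) →* ℂˣ))).toFinset,
        ev (η₁ * μ.comp (QuotientGroup.mk' (subH κ D' Q))) x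
          = (s : ℂ) * Λ (indChar (Q.comap κ) (η₁ * μ.comp (QuotientGroup.mk' (subH κ D' Q)))) := by
      intro μ _
      rw [hxv, hb]
    rw [Finset.prod_congr rfl h1, Finset.prod_mul_distrib, Finset.prod_const, ← hk,
      ← lam_prod κ Λ hΛ D' Q hQ η₁, hb, sub_self]
  obtain ⟨F, hF, hFv⟩ := exists_small κ j hκ p q hP D' hD t hinv hfix e he hev
  -- the unit
  let x₁ : MonoidAlgebra ℤ (Q.comap κ) := MonoidAlgebra.single 1 (s : ℤ)
  have hext : ∀ {n : Type} [Fintype n] [DecidableEq n] (ρ : Q.comap κ →* Matrix n n ℂ),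
      (ext ρ x₁).det = (s : ℂ) ^ Fintype.card n := by
    intro n _ _ ρ
    change (ext ρ (MonoidAlgebra.single 1 (s : ℤ))).det = _
    rw [ext_single, map_one]
    have : ((s : ℤ) • (1 : Matrix n n ℂ)) = (s : ℂ) • 1 := by
      ext i k
      simp
    rw [this, Matrix.det_smul, Matrix.det_one, mul_one]
  have hevx : ∀ η : Q.comap κ →* ℂˣ, ev η x₁ = (s : ℂ) := by
    intro η
    change ev η (MonoidAlgebra.single 1 (s : ℤ)) = _
    rw [ev_single, map_one, Units.val_one, mul_one]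
    push_cast
    rfl
  have hcards : (s : ℂ) ^ Fintype.card (Q.comap κ ⧸ subH κ D' Q) = (s : ℂ) ^ k := by
    have h1 := det_prod κ D' Q hQ (1 : Q.comap κ →* ℂˣ) x₁
    rw [hext, Finset.prod_congr rfl fun μ _ => hevx _, Finset.prod_const, ← hk] at h1
    exact h1
  have hemx : emH κ Q x₁ = MonoidAlgebra.single 1 (s : ℤ) := by
    rw [emH, Finset.sum_eq_single (1 : Q.comap κ)]
    · change MonoidAlgebra.single ((1 : Q.comap κ) : G)
        ((MonoidAlgebra.single (1 : Q.comap κ) (s : ℤ)).coeff 1) = _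
      rw [MonoidAlgebra.coeff_single, Finsupp.single_eq_same, Subgroup.coe_one]
    · intro h _ hh
      change MonoidAlgebra.single (h : G)
        ((MonoidAlgebra.single (1 : Q.comap κ) (s : ℤ)).coeff h) = _
      rw [MonoidAlgebra.coeff_single, Finsupp.single_eq_of_ne hh, MonoidAlgebra.single_zero]
    · intro h
      exact absurd (Finset.mem_univ _) h
  have hx₁ : ∀ e ∈ E', MonoidAlgebra.single (j e) 1 * emH κ Q x₁
      = emH κ Q x₁ * MonoidAlgebra.single (j e) 1 := by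
    intro e _
    rw [hemx, MonoidAlgebra.single_mul_single, MonoidAlgebra.single_mul_single, mul_one, one_mul,
      one_mul, mul_one]
  set Y : IrrRep G → ℂ := fun π => ((s : ℂ) ^ π.n)⁻¹ * (ext π.ρ (XE κ j E' Q x)).det with hY
  set Y₁ : IrrRep G → ℂ := fun π => ((s : ℂ) ^ π.n)⁻¹ * (ext π.ρ (XE κ j E' Q x₁)).det with hY₁
  have hYm : Y ∈ Ip G p := mem_Y κ j hκ p E' Q hpE x
  have hY₁m : Y₁ ∈ Ip G p := mem_Y κ j hκ p E' Q hpE x₁
  have hYQ : ∀ (π : IrrRep G) (d : Dat κ j π), d.D = Q → Y π = (s : ℂ) * ev d.η (b d.D) := by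
    intro π d h
    change ((s : ℂ) ^ π.n)⁻¹ * (ext π.ρ (XE κ j E' Q x)).det = _
    rw [nr_full' κ j hκ d E' Q h hE1 hE2 x hx b s hxv, inv_mul_cancel_left₀ (pow_ne_zero _ hs0)]
  have hYD : ∀ (π : IrrRep G) (d : Dat κ j π), d.D = D' → Y π = ev d.η (nf d.D) := by
    intro π d h
    change ((s : ℂ) ^ π.n)⁻¹ * (ext π.ρ (XE κ j E' Q x)).det = _
    rw [nr_small' κ j hκ d D' E' Q h hQ hE1 hE2 x hx nf hnf,
      inv_mul_cancel_left₀ (pow_ne_zero _ hs0)]
  have hY₁Q : ∀ (π : IrrRep G) (d : Dat κ j π), d.D = Q → Y₁ π = (s : ℂ) := by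
    intro π d h
    change ((s : ℂ) ^ π.n)⁻¹ * (ext π.ρ (XE κ j E' Q x₁)).det = _
    rw [nr_full' κ j hκ d E' Q h hE1 hE2 x₁ hx₁ (fun _ => 1) s
      (fun η => by rw [hevx, map_one, mul_one]), inv_mul_cancel_left₀ (pow_ne_zero _ hs0), map_one,
      mul_one]
  have hY₁D : ∀ (π : IrrRep G) (d : Dat κ j π), d.D = D' → Y₁ π = (s : ℂ) ^ k := by
    intro π d h
    change ((s : ℂ) ^ π.n)⁻¹ * (ext π.ρ (XE κ j E' Q x₁)).det = _
    rw [nr_small' κ j hκ d D' E' Q h hQ hE1 hE2 x₁ hx₁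
      (fun D => MonoidAlgebra.single 1 ((s : ℤ) ^ k))
      (fun η => by
        rw [hext, hcards, ev_single, map_one, Units.val_one, mul_one]
        push_cast
        rfl), inv_mul_cancel_left₀ (pow_ne_zero _ hs0), ev_single, map_one, Units.val_one, mul_one]
    push_cast
    rfl
  set f : IrrRep G → ℂ := Y₁ * e + (1 - e) with hf
  have hfm : f ∈ Ip G p := Subring.add_mem _ (Subring.mul_mem _ hY₁m he)
    (Subring.sub_mem _ (Subring.one_mem _) he)
  have hfv : ∀ (π : IrrRep G) (d : Dat κ j π), d.D ⊓ EE q C = D' → f π = Y₁ π := by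
    intro π d h
    change Y₁ π * e π + (1 - e π) = _
    rw [hev π d, if_pos h]
    ring
  have hum : (fun π => (f π)⁻¹) ∈ Ip G p := by
    refine Ip_inv p {1, (s : ℤ), (s : ℤ) ^ k} ?_ hfm ?_
    · intro a ha
      simp only [Finset.mem_insert, Finset.mem_singleton] at ha
      rcases ha with rfl | rfl | rfl
      · intro h
        exact hp.out.one_lt.ne' (Nat.dvd_one.1 (by exact_mod_cast h))
      · exact hsp
      · exact hskp
    · intro π
      obtain ⟨d⟩ := exists_dat κ j hκ π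
      by_cases h : d.D ⊓ EE q C = D'
      · rw [hfv π d h]
        rcases hcase π d h with h1 | h1
        · exact ⟨(s : ℤ), by simp, by rw [hY₁Q π d h1]; push_cast; rfl⟩
        · exact ⟨(s : ℤ) ^ k, by simp, by rw [hY₁D π d h1]; push_cast; rfl⟩
      · refine ⟨1, by simp, ?_⟩
        change Y₁ π * e π + (1 - e π) = _
        rw [hev π d, if_neg h]
        simp
  have hF2 : (fun π => ((s : ℂ) ^ k)⁻¹ * F π) ∈ Ip G p := by
    refine Ip_div p ((s : ℤ) ^ k) hskp ?_
    have e1 : (((s : ℤ) ^ k) • fun π => ((s : ℂ) ^ k)⁻¹ * F π) = F := by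
      funext π
      rw [Pi.smul_apply, zsmul_eq_mul]
      push_cast
      rw [mul_inv_cancel_left₀ (pow_ne_zero _ hs0)]
    rw [e1]
    exact hF
  have key : theta Λ * e
      = e * ((fun π => (f π)⁻¹) * Y) + (fun π => ((s : ℂ) ^ k)⁻¹ * F π) := by
    funext π
    obtain ⟨d⟩ := exists_dat κ j hκ π
    have hth : theta Λ π = ev d.η (b d.D) := by
      rw [theta, ← hb]
      congr 1
      funext g
      exact dat_char hκ d g
    change theta Λ π * e π = e π * ((f π)⁻¹ * Y π) + ((s : ℂ) ^ k)⁻¹ * F π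
    by_cases h : d.D ⊓ EE q C = D'
    · rw [hfv π d h, hev π d, if_pos h, hFv π d]
      rcases hcase π d h with h1 | h1
      · rw [hY₁Q π d h1, hYQ π d h1, hth, mul_one, one_mul, inv_mul_cancel_left₀ hs0]
        by_cases h2 : d.D = D'
        · rw [if_pos h2]
          have h3 : ev d.η (t d.D) = 0 := by
            have h4 : ∀ (D : Subgroup C) (η : D.comap κ →* ℂˣ), D = D' →
                (∀ c : C, c ^ q.v = 1 → cj κ.ker (j c) (resA κ D η) = resA κ D η) →
                ev η (t D) = 0 := by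
              intro D η hDD
              subst hDD
              exact hfix η
            refine h4 d.D d.η h2 fun c hc => ?_
            rw [d.hD, h1]
            exact hQP c hc
          rw [h3, mul_zero, add_zero]
        · rw [if_neg h2, mul_zero, add_zero]
      · rw [hY₁D π d h1, hYD π d h1, hth, if_pos h1, htv]
        have hsk : ((s : ℂ) ^ k) ≠ 0 := pow_ne_zero _ hs0
        field_simp
        ring
    · rw [hev π d, if_neg h, hFv π d, if_neg, mul_zero, zero_mul, mul_zero, zero_add]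
      intro h2
      apply h
      rw [h2]
      exact inf_of_le_left hD
  rw [key]
  exact Subring.add_mem _ (Subring.mul_mem _ he (Subring.mul_mem _ hum hYm)) hF2

end

end H29SQ
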