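import Mathlib

/-!
# Finite abelian groups of squarefree exponent

PROOF of `exists_compl`.  Among the subgroups `E` with `Q ⊓ E = ⊥` take a maximal one (finite lattice,
`Set.Finite.exists_maximal...` or `Finite.exists_maximal`/ by cardinality).  Suppose `Q ⊔ E ≠ ⊤`, `c ∉ Q ⊔ E`.  `c` is a product of powers of
`c` of prime order (its order is squarefree), so there is a power `y` of `c` of prime order `ℓ`, `y ∉ Q ⊔ E` (this is
`le_of_primes` applied to `zpowers c` and `Q ⊔ E`).  `zpowers y ⊓ (Q ⊔ E) = ⊥`.  Then `Q ⊓ (E ⊔ zpowers y) = ⊥`: if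
`q = e * y ^ i` then `y ^ i ∈ Q ⊔ E`, so `y ^ i = 1`, `q = e ∈ Q ⊓ E = ⊥`.  Contradiction to maximality.

PROOF of `le_of_primes`.  Strong induction on `orderOf x`, `x ∈ D₁`.  If it is not `1` let `ℓ` be a prime divisor,
`orderOf x = ℓ * o`, squarefree (`Monoid.order_dvd_exponent`), so `ℓ, o` coprime.  `x ^ o` has order `ℓ`, `zpowers (x ^ o) ≤ D₁`
has prime order, so `x ^ o ∈ D₂`.  `x ^ ℓ` has order `o < orderOf x`, so `x ^ ℓ ∈ D₂`.  Bezout: `x ∈ D₂`.
-/

set_option autoImplicit false

namespace H29SQ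

theorem le_of_primes {C : Type} [CommGroup C] [Finite C] (hC : Squarefree (Monoid.exponent C))
    (D₁ D₂ : Subgroup C) (h : ∀ F : Subgroup C, (Nat.card F).Prime → F ≤ D₁ → F ≤ D₂) :
    D₁ ≤ D₂ := by
  have key : ∀ n : ℕ, ∀ x : C, orderOf x = n → x ∈ D₁ → x ∈ D₂ := by
    intro n
    induction n using Nat.strong_induction_on with
    | _ n ih =>
      intro x hxn hx
      by_cases h1 : n = 1
      · have h2 : x = 1 := orderOf_eq_one_iff.mp (by rw [hxn, h1])
        rw [h2]
        exact D₂.one_mem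
      · obtain ⟨l, hl, o, ho⟩ := Nat.exists_prime_and_dvd h1
        have hn0 : 0 < n := by rw [← hxn]; exact orderOf_pos x
        have ho0 : 0 < o := by
          rcases Nat.eq_zero_or_pos o with h0 | h0
          · rw [h0, mul_zero] at ho
            omega
          · exact h0
        have hsq : Squarefree n := by
          rw [← hxn]
          exact hC.squarefree_of_dvd (Monoid.order_dvd_exponent x)
        have hcop : Nat.Coprime l o := Nat.coprime_of_squarefree_mul (by rw [← ho]; exact hsq)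
        have e1 : orderOf (x ^ o) = l := by
          rw [orderOf_pow_of_dvd ho0.ne' (by rw [hxn, ho]; exact Dvd.intro_left l rfl), hxn, ho]
          exact Nat.mul_div_cancel _ ho0
        have e2 : orderOf (x ^ l) = o := by
          rw [orderOf_pow_of_dvd hl.ne_zero (by rw [hxn, ho]; exact Dvd.intro o rfl), hxn, ho]
          exact Nat.mul_div_cancel_left _ hl.pos
        have hx1 : x ^ o ∈ D₂ := by
          have h3 := h (Subgroup.zpowers (x ^ o)) (by rw [Nat.card_zpowers, e1]; exact hl)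
            (by rw [Subgroup.zpowers_le]; exact D₁.pow_mem hx o)
          exact h3 (Subgroup.mem_zpowers _)
        have hx2 : x ^ l ∈ D₂ := by
          refine ih o ?_ (x ^ l) e2 (D₁.pow_mem hx l)
          rw [ho]
          have := hl.two_le
          nlinarith
        have hb : (l : ℤ) * Nat.gcdA l o + (o : ℤ) * Nat.gcdB l o = 1 := by
          have h4 := Nat.gcd_eq_gcd_ab l o
          rw [hcop] at h4
          rw [← h4]
          rfl
        have h5 : x = (x ^ l) ^ (Nat.gcdA l o) * (x ^ o) ^ (Nat.gcdB l o) := by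
          rw [← zpow_natCast, ← zpow_natCast, ← zpow_mul, ← zpow_mul, ← zpow_add, hb, zpow_one]
        rw [h5]
        exact D₂.mul_mem (D₂.zpow_mem hx2 _) (D₂.zpow_mem hx1 _)
  intro x hx
  exact key _ x rfl hx

theorem exists_compl {C : Type} [CommGroup C] [Finite C] (hC : Squarefree (Monoid.exponent C))
    (Q : Subgroup C) : ∃ E : Subgroup C, Q ⊓ E = ⊥ ∧ Q ⊔ E = ⊤ := by
  obtain ⟨E, hE⟩ := (Set.toFinite {E : Subgroup C | Q ⊓ E = ⊥}).exists_maximal ⟨⊥, by simp⟩
  have hE1 : Q ⊓ E = ⊥ := hE.prop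
  refine ⟨E, hE1, ?_⟩
  by_contra hne
  have hex : ∃ F : Subgroup C, (Nat.card F).Prime ∧ ¬ F ≤ Q ⊔ E := by
    by_contra hc
    push Not at hc
    exact hne (top_le_iff.mp (le_of_primes hC ⊤ (Q ⊔ E) (fun F hF _ => hc F hF)))
  obtain ⟨F, hF, hFn⟩ := hex
  have hFE : ∀ f ∈ F, f ∈ Q ⊔ E → f = 1 := by
    intro f hf hf2
    by_contra hf1
    have h1 : orderOf f ∣ Nat.card F := Subgroup.orderOf_dvd_natCard F hf
    rcases (Nat.dvd_prime hF).mp h1 with h2 | h2
    · exact hf1 (orderOf_eq_one_iff.mp h2)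
    · have h3 : Subgroup.zpowers f = F := by
        apply Subgroup.eq_of_le_of_card_ge
        · rw [Subgroup.zpowers_le]; exact hf
        · rw [Nat.card_zpowers, h2]
      apply hFn
      rw [← h3, Subgroup.zpowers_le]
      exact hf2
  have hE' : Q ⊓ (E ⊔ F) = ⊥ := by
    rw [eq_bot_iff]
    intro q hq
    obtain ⟨hq1, hq2⟩ := Subgroup.mem_inf.mp hq
    obtain ⟨e, he, f, hf, hef⟩ := Subgroup.mem_sup.mp hq2
    have h1 : f = e⁻¹ * q := by rw [← hef]; group
    have h2 : f ∈ Q ⊔ E := by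
      rw [h1]
      exact (Q ⊔ E).mul_mem (Subgroup.mem_sup_right (E.inv_mem he)) (Subgroup.mem_sup_left hq1)
    have h3 := hFE f hf h2
    rw [h3, mul_one] at hef
    rw [← hE1]
    exact Subgroup.mem_inf.mpr ⟨hq1, hef ▸ he⟩
  have h4 : E ⊔ F ≤ E := hE.le_of_ge hE' le_sup_left
  exact hFn (le_trans (le_trans le_sup_right h4) le_sup_right)

end H29SQ
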