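import Mathlib
import Pool.Agent.H29.SQ.Ip

/-!
# Detecting subgroups of prime order of the stabilizer

PROOF of `exists_gF`.  `ℓ = Nat.card F`, prime, `ℓ ≠ p`.  Let `w = ∑ f : F, single f 1` in `MonoidAlgebra ℤ C`.
By `dat_det` (and `reducedNorm_one`) the function `π ↦ ek (resD κ j hκ d.D d.η) (nmv x d.D)` is the reduced norm of
`emC j x`, hence in the integrality ring, for `x = w`, `x = ℓ - w`, `x = ℓ`; by `H25SI.ek_nmv` (`k = ℂ`) it is
`∏ lam ∈ exts d.D μ, ek lam x`, `μ = resD κ j hκ d.D d.η`.  `ek lam w = ℓ` if `lam` is trivial on `F`, `0` otherwise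
(sum of a character of `F`).
Claim: `nr w + nr (ℓ - w) = (if F ≤ d.D then 1 else 0) * nr ℓ`, `nr ℓ = ℓ ^ (number of extensions)`.
If `F ≤ d.D`: all `lam ∈ exts d.D μ` have the same restriction to `F`; if it is trivial `nr w = ℓ ^ N`,
`nr (ℓ - w) = 0`, otherwise `nr w = 0`, `nr (ℓ - w) = ℓ ^ N` (`exts` is not empty).
If not: `F ⊓ d.D = ⊥` (prime order), so there are a `lam ∈ exts d.D μ` trivial on `F` and one not trivial on `F`
(`H29SM.exists_pair` in SM/Fac.lean, with a trivial and a nontrivial character of `F`, compatible since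
`d.D.subgroupOf F` is trivial), so both `nr` are `0`.
Finally `nr ℓ` takes finitely many values, powers of `ℓ` with exponent `≤ Nat.card C` (the number of extensions is at
most the number of characters of `C`), so its inverse is in `Ip G p` by `Ip_inv`; `g = (nr w + nr (ℓ - w)) * (nr ℓ)⁻¹`.
-/

set_option autoImplicit false
set_option linter.unusedSectionVars false

namespace H29SQ

open H25SI H29SM
open scoped IsMulCommutative

section
variable {G : Type} [Group G] [Fintype G] {C : Type} [CommGroup C] [Fintype C] (κ : G →* C)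
  (j : C →* G) [IsMulCommutative κ.ker] [Fintype κ.ker]

theorem nr_mem (p : ℕ) [Fact p.Prime] (x : MonoidAlgebra ℤ C) :
    (fun π : IrrRep G => (ext π.ρ (emC j x)).det) ∈ Ip G p := by
  refine Ip_of_mem p (Subring.subset_closure (Or.inr ⟨1, Matrix.of fun _ _ : Fin 1 => emC j x, ?_⟩))
  funext π
  rw [reducedNorm_one]

/-- the sum of the elements of `F` -/
noncomputable def wF (F : Subgroup C) [Fintype F] : MonoidAlgebra ℤ C :=
  ∑ f : F, MonoidAlgebra.single (f : C) 1

open Classical in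
theorem ek_wF (F : Subgroup C) [Fintype F] (lam : C →* ℂˣ) :
    ek lam (wF F) = if lam.comp F.subtype = 1 then (Nat.card F : ℂ) else 0 := by
  have h1 : ek lam (wF F) = ∑ f : F, ((Units.coeHom ℂ).comp (lam.comp F.subtype)) f := by
    rw [wF, map_sum]
    refine Finset.sum_congr rfl fun f _ => ?_
    rw [ek_single, Int.cast_one, one_mul]
    rfl
  rw [h1, sum_hom_units]
  have h2 : ((Units.coeHom ℂ).comp (lam.comp F.subtype) = 1) ↔ lam.comp F.subtype = 1 := by
    constructor
    · intro h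
      apply MonoidHom.ext
      intro f
      exact Units.ext (DFunLike.congr_fun h f)
    · intro h
      rw [h]
      rfl
  by_cases h : lam.comp F.subtype = 1
  · rw [if_pos h, if_pos (h2.2 h), Nat.card_eq_fintype_card]
  · rw [if_neg h, if_neg (fun h3 => h (h2.1 h3))]
    simp

open Classical in
theorem exists_gF (hκ : ∀ c, κ (j c) = c) (p : ℕ) [Fact p.Prime] (F : Subgroup C)
    (hF : (Nat.card F).Prime) (hpF : ¬ p ∣ Nat.card F) :
    ∃ g ∈ Ip G p, ∀ (π : IrrRep G) (d : Dat κ j π), g π = if F ≤ d.D then 1 else 0 := by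
  have i1 : HasEnoughRootsOfUnity ℂ (Monoid.exponent C) :=
    hasEnough (Nat.cast_ne_zero.2 Nat.card_pos.ne')
  have iF : Fintype F := Fintype.ofFinite _
  have hC : (Nat.card C : ℂ) ≠ 0 := Nat.cast_ne_zero.2 Nat.card_pos.ne'
  have hl0 : (Nat.card F : ℂ) ≠ 0 := Nat.cast_ne_zero.2 hF.ne_zero
  have hval : ∀ (x : MonoidAlgebra ℤ C) (π : IrrRep G) (d : Dat κ j π),
      (ext π.ρ (emC j x)).det = ∏ lam ∈ exts d.D (resD κ j hκ d.D d.η), ek lam x := by
    intro x π d
    rw [dat_det hκ d x, ek_nmv hC]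
  have hl : ∀ lam : C →* ℂˣ, ek lam ((Nat.card F : ℕ) : MonoidAlgebra ℤ C) = (Nat.card F : ℂ) := by
    intro lam
    rw [map_natCast]
  have hlw : ∀ lam : C →* ℂˣ, ek lam (((Nat.card F : ℕ) : MonoidAlgebra ℤ C) - wF F)
      = (Nat.card F : ℂ) - if lam.comp F.subtype = 1 then (Nat.card F : ℂ) else 0 := by
    intro lam
    rw [map_sub, hl, ek_wF]
  have hinv : (fun π : IrrRep G => ((ext π.ρ (emC j ((Nat.card F : ℕ) : MonoidAlgebra ℤ C))).det)⁻¹) ∈ Ip G p := by
    refine Ip_inv p (Finset.image (fun i : ℕ => (Nat.card F : ℤ) ^ i)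
      (Finset.range (Fintype.card (C →* ℂˣ) + 1))) ?_ (nr_mem j p _) ?_
    · intro s hs hps
      obtain ⟨i, _, rfl⟩ := Finset.mem_image.1 hs
      have hp := Fact.out (p := p.Prime)
      have h1 := (Nat.prime_iff_prime_int.1 hp).dvd_of_dvd_pow hps
      exact hpF (Int.natCast_dvd_natCast.1 h1)
    · intro π
      obtain ⟨d⟩ := exists_dat κ j hκ π
      refine ⟨(Nat.card F : ℤ) ^ (exts d.D (resD κ j hκ d.D d.η)).card, Finset.mem_image.2 ⟨_, ?_, rfl⟩, ?_⟩
      · rw [Finset.mem_range, Nat.lt_succ_iff]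
        exact Finset.card_le_univ _
      · rw [hval _ π d, Finset.prod_congr rfl (fun lam _ => hl lam), Finset.prod_const]
        push_cast
        rfl
  refine ⟨_, Subring.mul_mem _ (Subring.add_mem _ (nr_mem j p (wF F))
    (nr_mem j p (((Nat.card F : ℕ) : MonoidAlgebra ℤ C) - wF F))) hinv, fun π d => ?_⟩
  change ((ext π.ρ (emC j (wF F))).det + (ext π.ρ (emC j (((Nat.card F : ℕ) : MonoidAlgebra ℤ C) - wF F))).det) *
    ((ext π.ρ (emC j ((Nat.card F : ℕ) : MonoidAlgebra ℤ C))).det)⁻¹ = _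
  rw [hval _ π d, hval _ π d, hval _ π d, Finset.prod_congr rfl (fun lam _ => hl lam),
    Finset.prod_congr rfl (fun lam _ => hlw lam), Finset.prod_congr rfl (fun lam _ => ek_wF F lam),
    Finset.prod_const]
  obtain ⟨lam0, hlam0⟩ := exists_exts (k := ℂ) d.D (resD κ j hκ d.D d.η)
  have hpow : (Nat.card F : ℂ) ^ (exts d.D (resD κ j hκ d.D d.η)).card ≠ 0 := pow_ne_zero _ hl0
  by_cases hFD : F ≤ d.D
  · rw [if_pos hFD]
    have hsame : ∀ lam ∈ exts d.D (resD κ j hκ d.D d.η), lam.comp F.subtype = lam0.comp F.subtype := by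
      intro lam hlam
      rw [mem_exts] at hlam hlam0
      apply MonoidHom.ext
      intro f
      have h1 := DFunLike.congr_fun hlam ⟨(f : C), hFD f.2⟩
      have h2 := DFunLike.congr_fun hlam0 ⟨(f : C), hFD f.2⟩
      exact h1.trans h2.symm
    by_cases h0 : lam0.comp F.subtype = 1
    · have e1 : ∏ lam ∈ exts d.D (resD κ j hκ d.D d.η), (if lam.comp F.subtype = 1 then (Nat.card F : ℂ) else 0)
          = (Nat.card F : ℂ) ^ (exts d.D (resD κ j hκ d.D d.η)).card := by
        rw [← Finset.prod_const]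
        refine Finset.prod_congr rfl fun lam hlam => ?_
        rw [if_pos ((hsame lam hlam).trans h0)]
      have e2 : ∏ lam ∈ exts d.D (resD κ j hκ d.D d.η),
          ((Nat.card F : ℂ) - if lam.comp F.subtype = 1 then (Nat.card F : ℂ) else 0) = 0 := by
        refine Finset.prod_eq_zero hlam0 ?_
        rw [if_pos h0, sub_self]
      rw [e1, e2, add_zero, mul_inv_cancel₀ hpow]
    · have e1 : ∏ lam ∈ exts d.D (resD κ j hκ d.D d.η), (if lam.comp F.subtype = 1 then (Nat.card F : ℂ) else 0)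
          = 0 := by
        refine Finset.prod_eq_zero hlam0 ?_
        rw [if_neg h0]
      have e2 : ∏ lam ∈ exts d.D (resD κ j hκ d.D d.η),
          ((Nat.card F : ℂ) - if lam.comp F.subtype = 1 then (Nat.card F : ℂ) else 0)
          = (Nat.card F : ℂ) ^ (exts d.D (resD κ j hκ d.D d.η)).card := by
        rw [← Finset.prod_const]
        refine Finset.prod_congr rfl fun lam hlam => ?_
        rw [if_neg (fun h => h0 ((hsame lam hlam).symm.trans h)), sub_zero]
      rw [e1, e2, zero_add, mul_inv_cancel₀ hpow]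
  · rw [if_neg hFD]
    have hbot : d.D.subgroupOf F = ⊥ := by
      have hfp : Fact (Nat.card F).Prime := ⟨hF⟩
      rcases Subgroup.eq_bot_or_eq_top_of_prime_card (d.D.subgroupOf F) with h | h
      · exact h
      · exact absurd (Subgroup.subgroupOf_eq_top.1 h) hFD
    have hcomp : ∀ ν : F →* ℂˣ, ∃ lam ∈ exts d.D (resD κ j hκ d.D d.η), lam.comp F.subtype = ν := by
      intro ν
      obtain ⟨lam, h1, h2⟩ := exists_pair F d.D (resD κ j hκ d.D d.η) ν (by
        apply MonoidHom.ext
        intro x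
        have hx : x = 1 := by
          apply Subtype.ext
          exact Subgroup.mem_bot.1 (hbot.le x.2)
        rw [hx, map_one, map_one])
      exact ⟨lam, (mem_exts _ _ _).2 h1, h2⟩
    obtain ⟨lam1, hlam1, h1⟩ := hcomp 1
    have hne : ∃ ν : F →* ℂˣ, ν ≠ 1 := by
      have i2 : HasEnoughRootsOfUnity ℂ (Monoid.exponent F) :=
        hasEnough (Nat.cast_ne_zero.2 Nat.card_pos.ne')
      have hnt : Nontrivial F := Finite.one_lt_card_iff_nontrivial.1 hF.one_lt
      obtain ⟨a, ha⟩ := exists_ne (1 : F)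
      obtain ⟨φ, hφ⟩ := CommGroup.exists_apply_ne_one_of_hasEnoughRootsOfUnity F ℂ ha
      refine ⟨φ, fun h => hφ ?_⟩
      rw [h]
      rfl
    obtain ⟨ν, hν⟩ := hne
    obtain ⟨lam2, hlam2, h2⟩ := hcomp ν
    have e1 : ∏ lam ∈ exts d.D (resD κ j hκ d.D d.η), (if lam.comp F.subtype = 1 then (Nat.card F : ℂ) else 0)
        = 0 := by
      refine Finset.prod_eq_zero hlam2 ?_
      rw [if_neg (fun h => hν (h2.symm.trans h))]
    have e2 : ∏ lam ∈ exts d.D (resD κ j hκ d.D d.η),
        ((Nat.card F : ℂ) - if lam.comp F.subtype = 1 then (Nat.card F : ℂ) else 0) = 0 := by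
      refine Finset.prod_eq_zero hlam1 ?_
      rw [if_pos h1, sub_self]
    rw [e1, e2, add_zero, zero_mul]

end

end H29SQ
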