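import Mathlib
import Pool.Agent.H29.SQ.Gf

/-!
# Detecting the prime to `p` part of the stabilizer

PROOF of `exists_eD`.  `e := ∏ F, (if F ≤ D' then g_F else 1 - g_F)`, product over the (finite) set of subgroups
`F ≤ E` of prime order, `g_F` from `exists_gF` (`Nat.card F ∣ Nat.card E`, so `p ∤ Nat.card F`).  At `π` the product
is `1` if `F ≤ d.D ↔ F ≤ D'` for all `F ≤ E` of prime order, and `0` otherwise.  This condition is equivalent to
`d.D ⊓ E = D'`: `←` is clear.  `→`: let `D₁ = d.D ⊓ E`.  If `¬ D₁ ≤ D'` let `ℓ` be a prime dividing the index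
of `D₁ ⊓ D'` in `D₁`; `Nat.card D₁ ∣ Nat.card E` is squarefree, so `ℓ ∤ Nat.card (D₁ ⊓ D')`; Cauchy gives `x ∈ D₁` of
order `ℓ`, `F := zpowers x ≤ D₁`, so `F ≤ D'`, so `ℓ ∣ Nat.card (D₁ ⊓ D')`, contradiction.  In the same way
`D' ≤ D₁`.
-/

set_option autoImplicit false
set_option linter.unusedSectionVars false

namespace H29SQ

open H25SI H29SM
open scoped IsMulCommutative

/-- subgroups of a group of squarefree order are determined by their subgroups of prime order -/
theorem le_of_prime {C : Type} [CommGroup C] [Finite C] (E D₁ D₂ : Subgroup C)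
    (hE : Squarefree (Nat.card E)) (h1 : D₁ ≤ E)
    (h : ∀ F : Subgroup C, (Nat.card F).Prime → F ≤ D₁ → F ≤ D₂) : D₁ ≤ D₂ := by
  classical
  by_contra hnot
  have hne : (D₁ ⊓ D₂).relIndex D₁ ≠ 1 := by
    intro h2
    exact hnot ((Subgroup.relIndex_eq_one.1 h2).trans inf_le_right)
  obtain ⟨l, hl, hdvd⟩ := Nat.exists_prime_and_dvd hne
  have hmul : Nat.card (D₁ ⊓ D₂ : Subgroup C) * (D₁ ⊓ D₂).relIndex D₁ = Nat.card D₁ := by
    have := Subgroup.card_mul_index ((D₁ ⊓ D₂).subgroupOf D₁)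
    rw [← this]
    congr 1
    exact (Nat.card_congr (Subgroup.subgroupOfEquivOfLe (inf_le_left : D₁ ⊓ D₂ ≤ D₁)).toEquiv).symm
  have hsq : Squarefree (Nat.card D₁) := hE.squarefree_of_dvd (Subgroup.card_dvd_of_le h1)
  have hlD : l ∣ Nat.card D₁ := hmul ▸ hdvd.mul_left _
  have : Fact l.Prime := ⟨hl⟩
  obtain ⟨x, hx⟩ := exists_prime_orderOf_dvd_card' (G := D₁) l hlD
  have hx' : orderOf (x : C) = l := by rw [Subgroup.orderOf_coe, hx]
  have hFl : Nat.card (Subgroup.zpowers (x : C)) = l := by rw [Nat.card_zpowers, hx']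
  have hF1 : Subgroup.zpowers (x : C) ≤ D₁ := by
    rw [Subgroup.zpowers_le]; exact x.2
  have hF2 := h (Subgroup.zpowers (x : C)) (hFl ▸ hl) hF1
  have hdv2 : l ∣ Nat.card (D₁ ⊓ D₂ : Subgroup C) := by
    rw [← hFl]
    exact Subgroup.card_dvd_of_le (le_inf hF1 hF2)
  have hll : l * l ∣ Nat.card D₁ := by
    rw [← hmul]
    exact mul_dvd_mul hdv2 hdvd
  exact hl.not_isUnit (hsq l hll)

section
variable {G : Type} [Group G] [Fintype G] {C : Type} [CommGroup C] [Fintype C] (κ : G →* C)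
  (j : C →* G) [IsMulCommutative κ.ker] [Fintype κ.ker]

open Classical in
theorem exists_eD (hκ : ∀ c, κ (j c) = c) (p : ℕ) [Fact p.Prime] (E D' : Subgroup C)
    (hE : Squarefree (Nat.card E)) (hpE : ¬ p ∣ Nat.card E) (hD : D' ≤ E) :
    ∃ e ∈ Ip G p, ∀ (π : IrrRep G) (d : Dat κ j π), e π = if d.D ⊓ E = D' then 1 else 0 := by
  have hgF : ∀ F : Subgroup C, ∃ g ∈ Ip G p, (Nat.card F).Prime ∧ F ≤ E →
      ∀ (π : IrrRep G) (d : Dat κ j π), g π = if F ≤ d.D then 1 else 0 := by
    intro F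
    by_cases hF : (Nat.card F).Prime ∧ F ≤ E
    · obtain ⟨g, hg, h⟩ := exists_gF κ j hκ p F hF.1
        (fun h => hpE (h.trans (Subgroup.card_dvd_of_le hF.2)))
      exact ⟨g, hg, fun _ => h⟩
    · exact ⟨1, Subring.one_mem _, fun h => absurd h hF⟩
  choose g hg hgv using hgF
  have hfin : Finite (Subgroup C) := inferInstance
  let S : Finset (Subgroup C) :=
    (Set.toFinite {F : Subgroup C | (Nat.card F).Prime ∧ F ≤ E}).toFinset
  have hS : ∀ F, F ∈ S ↔ (Nat.card F).Prime ∧ F ≤ E := by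
    intro F
    simp [S]
  refine ⟨∏ F ∈ S, (if F ≤ D' then g F else 1 - g F), ?_, ?_⟩
  · refine Subring.prod_mem _ fun F _ => ?_
    split_ifs
    · exact hg F
    · exact Subring.sub_mem _ (Subring.one_mem _) (hg F)
  · intro π d
    rw [Finset.prod_apply]
    have hval : ∀ F ∈ S, (if F ≤ D' then g F else 1 - g F) π =
        if (F ≤ d.D ↔ F ≤ D') then 1 else 0 := by
      intro F hF
      have hv := hgv F ((hS F).1 hF) π d
      by_cases h1 : F ≤ D'
      · rw [if_pos h1, hv]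
        by_cases h2 : F ≤ d.D
        · rw [if_pos h2, if_pos (iff_of_true h2 h1)]
        · rw [if_neg h2, if_neg (fun h => h2 (h.2 h1))]
      · rw [if_neg h1, Pi.sub_apply, Pi.one_apply, hv]
        by_cases h2 : F ≤ d.D
        · rw [if_pos h2, if_neg (fun h => h1 (h.1 h2)), sub_self]
        · rw [if_neg h2, if_pos (iff_of_false h2 h1), sub_zero]
    rw [Finset.prod_congr rfl hval]
    by_cases hD' : d.D ⊓ E = D'
    · rw [if_pos hD']
      refine Finset.prod_eq_one fun F hF => ?_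
      rw [if_pos]
      rw [← hD', le_inf_iff]
      exact ⟨fun h => ⟨h, ((hS F).1 hF).2⟩, fun h => h.1⟩
    · rw [if_neg hD']
      by_contra hne
      have hall : ∀ F ∈ S, (F ≤ d.D ↔ F ≤ D') := by
        intro F hF
        by_contra hcon
        exact hne (Finset.prod_eq_zero hF (if_neg hcon))
      refine hD' (le_antisymm ?_ ?_)
      · refine le_of_prime E _ _ hE inf_le_right fun F hFp hF => ?_
        have hF' := le_inf_iff.1 hF
        exact (hall F ((hS F).2 ⟨hFp, hF'.2⟩)).1 hF'.1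
      · refine le_of_prime E _ _ hE hD fun F hFp hF => ?_
        exact le_inf ((hall F ((hS F).2 ⟨hFp, hF.trans hD⟩)).2 hF) (hF.trans hD)

end

end H29SQ
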