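import Mathlib
import Pool.Agent.H29.SQ.Gf
import Pool.Agent.H29.SQ.Cx

/-!
# Detecting the prime to `p` part of the stabilizer (squarefree exponent)
-/

set_option autoImplicit false
set_option linter.unusedSectionVars false

namespace H29SQ

open H25SI H29SM
open scoped IsMulCommutative

section
variable {G : Type} [Group G] [Fintype G] {C : Type} [CommGroup C] [Fintype C] (κ : G →* C)
  (j : C →* G) [IsMulCommutative κ.ker] [Fintype κ.ker]

open Classical in
theorem exists_eX (hκ : ∀ c, κ (j c) = c) (p : ℕ) [Fact p.Prime] (E D' : Subgroup C)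
    (hE : Squarefree (Monoid.exponent C)) (hpE : ¬ p ∣ Nat.card E) (hD : D' ≤ E) :
    ∃ e ∈ Ip G p, ∀ (π : IrrRep G) (d : Dat κ j π), e π = if d.D ⊓ E = D' then 1 else 0 := by
  have hgF : ∀ F : Subgroup C, ∃ g ∈ Ip G p, (Nat.card F).Prime ∧ F ≤ E →
      ∀ (π : IrrRep G) (d : Dat κ j π), g π = if F ≤ d.D then 1 else 0 := by
    intro F
    by_cases hF : (Nat.card F).Prime ∧ F ≤ E
    · obtain ⟨g, hg, h⟩ := exists_gF κ j hκ p F hF.1
        (fun h => hpE (h.trans (Subgroup.card_dvd_of_le hF.2)))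
      exact ⟨g, hg, fun _ => h⟩
    · exact ⟨1, Subring.one_mem _, fun h => absurd h hF⟩
  choose g hg hgv using hgF
  have hfin : Finite (Subgroup C) := inferInstance
  let S : Finset (Subgroup C) :=
    (Set.toFinite {F : Subgroup C | (Nat.card F).Prime ∧ F ≤ E}).toFinset
  have hS : ∀ F, F ∈ S ↔ (Nat.card F).Prime ∧ F ≤ E := by
    intro F
    simp [S]
  refine ⟨∏ F ∈ S, (if F ≤ D' then g F else 1 - g F), ?_, ?_⟩
  · refine Subring.prod_mem _ fun F _ => ?_
    split_ifs
    · exact hg F
    · exact Subring.sub_mem _ (Subring.one_mem _) (hg F)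
  · intro π d
    rw [Finset.prod_apply]
    have hval : ∀ F ∈ S, (if F ≤ D' then g F else 1 - g F) π =
        if (F ≤ d.D ↔ F ≤ D') then 1 else 0 := by
      intro F hF
      have hv := hgv F ((hS F).1 hF) π d
      by_cases h1 : F ≤ D'
      · rw [if_pos h1, hv]
        by_cases h2 : F ≤ d.D
        · rw [if_pos h2, if_pos (iff_of_true h2 h1)]
        · rw [if_neg h2, if_neg (fun h => h2 (h.2 h1))]
      · rw [if_neg h1, Pi.sub_apply, Pi.one_apply, hv]
        by_cases h2 : F ≤ d.D
        · rw [if_pos h2, if_neg (fun h => h1 (h.1 h2)), sub_self]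
        · rw [if_neg h2, if_pos (iff_of_false h2 h1), sub_zero]
    rw [Finset.prod_congr rfl hval]
    by_cases hD' : d.D ⊓ E = D'
    · rw [if_pos hD']
      refine Finset.prod_eq_one fun F hF => ?_
      rw [if_pos]
      rw [← hD', le_inf_iff]
      exact ⟨fun h => ⟨h, ((hS F).1 hF).2⟩, fun h => h.1⟩
    · rw [if_neg hD']
      by_contra hne
      have hall : ∀ F ∈ S, (F ≤ d.D ↔ F ≤ D') := by
        intro F hF
        by_contra hcon
        exact hne (Finset.prod_eq_zero hF (if_neg hcon))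
      refine hD' (le_antisymm ?_ ?_)
      · refine le_of_primes hE _ _ fun F hFp hF => ?_
        have hF' := le_inf_iff.1 hF
        exact (hall F ((hS F).2 ⟨hFp, hF'.2⟩)).1 hF'.1
      · refine le_of_primes hE _ _ fun F hFp hF => ?_
        exact le_inf ((hall F ((hS F).2 ⟨hFp, hF.trans hD⟩)).2 hF) (hF.trans hD)

end

end H29SQ
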