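import Mathlib
import Pool.Agent.H29.SQ.As
import Pool.Agent.H29.SQ.Ex
import Pool.Agent.H29.SM.Fin

/-!
# Semidirect products with a complement of squarefree exponent
-/

set_option autoImplicit false
set_option linter.unusedSectionVars false

namespace H29SQ

open H25SI H29SM
open scoped IsMulCommutative

section
variable {G : Type} [Group G] [Fintype G] {C : Type} [CommGroup C] [Fintype C] (κ : G →* C)
  (j : C →* G) [IsMulCommutative κ.ker] [Fintype κ.ker]

theorem v_of_order (hκ : ∀ c, κ (j c) = c) (p : ℕ) [hp : Fact p.Prime] (q : PQ p (Nat.card G))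
    (c : C) (hc : c ^ p = 1) : c ^ q.v = 1 := by
  have h1 := v_pow q c (pow_cardC κ j hκ c)
  have h2 : (c ^ q.v) ^ p = 1 := by rw [← pow_mul, mul_comm, pow_mul, hc, one_pow]
  have h3 := orderOf_dvd_of_pow_eq_one h1
  have h4 := orderOf_dvd_of_pow_eq_one h2
  rw [← orderOf_eq_one_iff]
  have h5 : Nat.Coprime p q.m := (Nat.Prime.coprime_iff_not_dvd hp.out).2 q.hm
  exact Nat.dvd_one.1 (h5 ▸ Nat.dvd_gcd h4 h3)

theorem p_part (hκ : ∀ c, κ (j c) = c) (p : ℕ) [hp : Fact p.Prime] (q : PQ p (Nat.card G))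
    (hpC : ¬ p ^ 2 ∣ Nat.card C) (D : Subgroup C) :
    (∀ c ∈ D, c ^ q.v = 1 → c = 1) ∨ (∀ c : C, c ^ q.v = 1 → c ∈ D) := by
  by_cases h : ∀ c ∈ D, c ^ q.v = 1 → c = 1
  · exact Or.inl h
  · right
    push Not at h
    obtain ⟨c₀, hc₀, hc₀v, hc₀1⟩ := h
    let P : Subgroup C := (powMonoidHom q.v : C →* C).ker
    have hPm : ∀ c, c ∈ P ↔ c ^ q.v = 1 := fun c => Iff.rfl
    have hPp : IsPGroup p P := by
      intro c
      refine ⟨q.r, Subtype.ext ?_⟩
      have h1 := u_pow q (c : C) (pow_cardC κ j hκ c)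
      have h2 := uv_mul q (c : C) (pow_cardC κ j hκ c)
      rw [(hPm _).1 c.2, mul_one] at h2
      rw [h2] at h1
      exact h1
    obtain ⟨k, hk⟩ := IsPGroup.iff_card.1 hPp
    have hk1 : k ≤ 1 := by
      by_contra hk2
      push Not at hk2
      apply hpC
      have h1 : Nat.card P ∣ Nat.card C := Subgroup.card_subgroup_dvd_card P
      rw [hk] at h1
      exact (pow_dvd_pow p hk2).trans h1
    have hz : Subgroup.zpowers c₀ ≤ P := by
      rw [Subgroup.zpowers_le]
      exact hc₀v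
    have hcard : Nat.card P ≤ Nat.card (Subgroup.zpowers c₀) := by
      have h1 : Nat.card (Subgroup.zpowers c₀) ∣ Nat.card P := Subgroup.card_dvd_of_le hz
      rw [hk] at h1
      obtain ⟨i, hi, hi2⟩ := (Nat.dvd_prime_pow hp.out).1 h1
      have hi0 : i ≠ 0 := by
        rintro rfl
        rw [pow_zero, Nat.card_zpowers, orderOf_eq_one_iff] at hi2
        exact hc₀1 hi2
      rw [hk, hi2]
      have : k ≤ i := by omega
      exact Nat.pow_le_pow_right hp.out.pos this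
    have heq : Subgroup.zpowers c₀ = P := Subgroup.eq_of_le_of_card_ge hz hcard
    intro c hc
    have h1 : c ∈ Subgroup.zpowers c₀ := by
      rw [heq]
      exact hc
    exact (Subgroup.zpowers_le.2 hc₀) h1

theorem core (hκ : ∀ c, κ (j c) = c) (p : ℕ) [hp : Fact p.Prime]
    (hex : Squarefree (Monoid.exponent C)) (hpC : ¬ p ^ 2 ∣ Nat.card C)
    (Λ : (G → ℂ) → ℂ) (hΛ : IsMultiplicative Λ)
    (b : ∀ D : Subgroup C, MonoidAlgebra ℤ (D.comap κ))
    (hb : ∀ (D : Subgroup C) (η : D.comap κ →* ℂˣ), Λ (indChar (D.comap κ) η) = ev η (b D)) :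
    theta Λ ∈ Ip G p := by
  classical
  obtain ⟨q⟩ := exists_PQ p (Nat.card G) Nat.card_pos
  have hpw := pow_cardC κ j hκ
  have hP := p_part κ j hκ p q hpC
  have hpE : ¬ p ∣ Nat.card (EE q C) := card_EE κ j hκ p q
  have hEm : ∀ c : C, c ∈ EE q C ↔ c ^ q.u = 1 := fun c => Iff.rfl
  have hdis : ∀ c : C, c ^ q.v = 1 → c ^ q.u = 1 → c = 1 := by
    intro c h1 h2
    have h3 := uv_mul q c (hpw c)
    rw [← h3, h1, h2, mul_one]
  choose e he hev using fun D' : {D : Subgroup C // D ≤ EE q C} =>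
    exists_eX κ j hκ p (EE q C) D'.1 hex hpE D'.2
  have i1 : Fintype {D : Subgroup C // D ≤ EE q C} := Fintype.ofFinite _
  have key : theta Λ = ∑ D' : {D : Subgroup C // D ≤ EE q C}, theta Λ * e D' := by
    funext π
    obtain ⟨d⟩ := exists_dat κ j hκ π
    rw [Finset.sum_apply, Finset.sum_eq_single (⟨d.D ⊓ EE q C, inf_le_right⟩ :
      {D : Subgroup C // D ≤ EE q C})]
    · rw [Pi.mul_apply, hev _ π d, if_pos rfl, mul_one]
    · intro D' _ hD'
      rw [Pi.mul_apply, hev _ π d, if_neg, mul_zero]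
      intro h
      exact hD' (Subtype.ext h.symm)
    · intro h
      exact absurd (Finset.mem_univ _) h
  rw [key]
  refine Subring.sum_mem _ fun D' _ => ?_
  obtain ⟨D', hD⟩ := D'
  let P : Subgroup C := (powMonoidHom q.v : C →* C).ker
  have hPm : ∀ c, c ∈ P ↔ c ^ q.v = 1 := fun c => Iff.rfl
  obtain ⟨Q, hQ⟩ : ∃ Q : Subgroup C, Q = P ⊔ D' := ⟨_, rfl⟩
  have hQP : ∀ c : C, c ^ q.v = 1 → c ∈ Q := by
    intro c hc
    rw [hQ]
    exact Subgroup.mem_sup_left hc
  have hDQ : D' ≤ Q := by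
    rw [hQ]
    exact le_sup_right
  obtain ⟨E', hE1, hE2⟩ := exists_compl hex Q
  refine claim κ j hκ p q hP Λ hΛ b hb D' Q E' hD hDQ hQP ?_ hE1 hE2 ?_ _ (he ⟨D', hD⟩)
    (hev ⟨D', hD⟩) ?_
  · intro c hc
    rw [hQ] at hc
    obtain ⟨x, hx, a, ha, rfl⟩ := Subgroup.mem_sup.1 hc
    exact ⟨x, hx, a, ha, rfl⟩
  · intro h
    obtain ⟨x, hx⟩ := exists_prime_orderOf_dvd_card' p h
    have hx1 : ((x : C)) ^ p = 1 := by
      have h1 : x ^ p = 1 := by rw [← hx]; exact pow_orderOf_eq_one x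
      exact congrArg Subtype.val h1
    have hx2 : (x : C) ∈ Q ⊓ E' := ⟨hQP _ (v_of_order κ j hκ p q _ hx1), x.2⟩
    rw [hE1, Subgroup.mem_bot] at hx2
    have hx3 : x = 1 := Subtype.ext hx2
    rw [hx3, orderOf_one] at hx
    exact hp.out.one_lt.ne hx
  · intro π d h
    rcases hP d.D with h1 | h1
    · right
      rw [← h]
      refine (inf_of_le_left fun c hc => ?_).symm
      rw [hEm]
      exact h1 _ (d.D.pow_mem hc _) (u_v q c (hpw c))
    · left
      rw [hQ]
      apply le_antisymm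
      · intro c hc
        rw [← uv_mul q c (hpw c)]
        refine Subgroup.mul_mem_sup (u_v q c (hpw c)) ?_
        rw [← h]
        exact ⟨d.D.pow_mem hc _, v_u q c (hpw c)⟩
      · rw [sup_le_iff]
        refine ⟨fun c hc => h1 c hc, ?_⟩
        rw [← h]
        exact inf_le_left

end

section
variable {G : Type} [Group G] [Fintype G]

theorem squarefree_split (A C : Subgroup G) [A.Normal] (hA : ∀ a ∈ A, ∀ b ∈ A, a * b = b * a)
    (hC : ∀ a ∈ C, ∀ b ∈ C, a * b = b * a) (hAC : A.IsComplement' C)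
    (hex : Squarefree (Monoid.exponent C)) (Λ : (G → ℂ) → ℂ) (hΛ : IsMultiplicative Λ)
    (hI : ∀ H : Subgroup G, commutator G ≤ H → IntegralAt Λ H) :
    ∃ N : ℕ, N ≠ 0 ∧ (∀ p : ℕ, p.Prime → p ∣ N → p ^ 2 ∣ Nat.card C ∧
        ∃ P : Sylow p G, ∃ x ∈ P, ∃ y ∈ P, x * y ≠ y * x) ∧
      (N : ℤ) • theta Λ ∈ integralityRing G := by
  classical
  have iC : IsMulCommutative C := ⟨⟨fun a b => Subtype.ext (hC a a.2 b b.2)⟩⟩
  obtain ⟨κ, hκ, hker⟩ := exists_split A C hC hAC
  have hQ : ∀ x y : G, x * y * x⁻¹ * y⁻¹ ∈ A := by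
    intro x y
    rw [← hker, MonoidHom.mem_ker, map_mul, map_mul, map_mul, map_inv, map_inv, mul_comm (κ x),
      mul_inv_cancel_right, mul_inv_cancel]
  have hGA : commutator G ≤ A := by
    rw [commutator_def, Subgroup.commutator_le]
    intro x _ y _
    exact hQ x y
  have iA : IsMulCommutative κ.ker := ⟨⟨fun a b => Subtype.ext
    (hA a (by rw [← hker]; exact a.2) b (by rw [← hker]; exact b.2))⟩⟩
  have i1 : Fintype κ.ker := Fintype.ofFinite _
  have i2 : Fintype C := Fintype.ofFinite _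
  obtain ⟨z, hz, hzv⟩ := metabelian A hA hQ Λ fun H hH => hI H (hGA.trans hH)
  have h1 : (Nat.card (commutator G) : ℤ) • theta Λ ∈ integralityRing G := by
    have h2 : (Nat.card (commutator G) : ℤ) • theta Λ = centralValue z := by
      funext π
      rw [hzv, Pi.smul_apply, zsmul_eq_mul, Int.cast_natCast]
    rw [h2]
    exact Subring.subset_closure (Or.inl ⟨z, hz, rfl⟩)
  choose b hb using fun D : Subgroup C => hI (D.comap κ)
    (hGA.trans (by rw [← hker]; exact ker_le κ D))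
  refine sub_mem_of_int _ _ (fun p => p ^ 2 ∣ Nat.card C ∧
    ∃ P : Sylow p G, ∃ x ∈ P, ∃ y ∈ P, x * y ≠ y * x) ⟨_, ?_, h1⟩ fun p hp hQp => ?_
  · have : 0 < Nat.card (commutator G) := Nat.card_pos
    exact_mod_cast this.ne'
  · have : Fact p.Prime := ⟨hp⟩
    by_cases h2 : p ^ 2 ∣ Nat.card C
    · have hS : ∀ P : Sylow p G, ∀ x ∈ P, ∀ y ∈ P, x * y = y * x := by
        intro P x hx y hy
        by_contra h
        exact hQp ⟨h2, P, x, hx, y, hy, h⟩
      obtain ⟨q⟩ := exists_PQ p (Nat.card G) Nat.card_pos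
      exact exists_mul (C := C) κ C.subtype hκ Λ b hb p q
        (comm_of_sylow (C := C) κ C.subtype hκ p q hS)
    · exact core (C := C) κ C.subtype hκ p hex h2 Λ hΛ b hb

end

end H29SQ
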